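import Mathlib

/-!
Definitions: rational subsets of a monoid, deterministic 2-tape automata, quasi-automatic and
asynchronously automatic structures of a semigroup.
-/

set_option autoImplicit false

open scoped Pointwise

namespace Pool.Agent.Lib.MP_7f7674_al

/-- Rational subsets of a monoid: the least family containing the finite subsets and closed under
union, product and `E ↦ E^* = ⋃ n, E ^ n`. -/
inductive IsRat {M : Type*} [Monoid M] : Set M → Prop
  | finite {X : Set M} : X.Finite → IsRat X
  | union {X Y : Set M} : IsRat X → IsRat Y → IsRat (X ∪ Y)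
  | mul {X Y : Set M} : IsRat X → IsRat Y → IsRat (X * Y)
  | star {X : Set M} : IsRat X → IsRat (⋃ n : ℕ, X ^ n)

/-- `Run tape next q x y r`: the 2-tape automaton in which state `q` reads the first tape if
`tape q = true` and the second tape otherwise, with at most one transition `next q a` for each
letter `a`, goes from `q` to `r` reading `x` on the first tape and `y` on the second. -/
inductive Run {Q T : Type*} (tape : Q → Bool) (next : Q → T → Option Q) :
    Q → List T → List T → Q → Prop
  | nil (q : Q) : Run tape next q [] [] q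
  | fst {q q' r : Q} {a : T} {x y : List T} : tape q = true → next q a = some q' →
      Run tape next q' x y r → Run tape next q (a :: x) y r
  | snd {q q' r : Q} {a : T} {x y : List T} : tape q = false → next q a = some q' →
      Run tape next q' x y r → Run tape next q x (a :: y) r

/-- A set of pairs of words is recognized by a deterministic 2-tape automaton. -/
def DetRec {T : Type*} (X : Set (List T × List T)) : Prop :=
  ∃ (n : ℕ) (tape : Fin n → Bool) (next : Fin n → T → Option (Fin n)) (start : Fin n)
    (final : Set (Fin n)),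
    ∀ x y : List T, (x, y) ∈ X ↔ ∃ r ∈ final, Run tape next start x y r

/-- The word `u$` over `A ∪ {$}`; the end marker `$` is `none`. -/
def mark {A : Type*} (u : FreeMonoid A) : List (Option A) :=
  (FreeMonoid.toList u).map some ++ [none]

/-- The relation `R$ = {(u$, v$) : (u, v) ∈ R}`. -/
def markRel {A : Type*} (R : Set (FreeMonoid A × FreeMonoid A)) :
    Set (List (Option A) × List (Option A)) :=
  (fun p => (mark p.1, mark p.2)) '' R

/-- The evaluation `μ` of words over the alphabet `A`, the letter `a` standing for `g a : S`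
(with values in `S` with an identity adjoined, which only the empty word takes). -/
def ev {A S : Type*} [Semigroup S] (g : A → S) : FreeMonoid A →* WithOne S :=
  FreeMonoid.lift (fun a => (g a : WithOne S))

/-- `L ⊆ A⁺` is rational and `μ(L) = S`. -/
def RatOnto {A S : Type*} [Semigroup S] (g : A → S) (L : Set (FreeMonoid A)) : Prop :=
  IsRat L ∧ (1 : FreeMonoid A) ∉ L ∧ ∀ s : S, ∃ u ∈ L, ev g u = (s : WithOne S)

/-- `R = {(u, v) ∈ L × L : μ(u) = μ(v)}`. -/
def relEq {A S : Type*} [Semigroup S] (g : A → S) (L : Set (FreeMonoid A)) :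
    Set (FreeMonoid A × FreeMonoid A) :=
  {p | p.1 ∈ L ∧ p.2 ∈ L ∧ ev g p.1 = ev g p.2}

/-- `R_a = {(u, v) ∈ L × L : μ(ua) = μ(v)}`. -/
def relMul {A S : Type*} [Semigroup S] (g : A → S) (L : Set (FreeMonoid A)) (a : A) :
    Set (FreeMonoid A × FreeMonoid A) :=
  {p | p.1 ∈ L ∧ p.2 ∈ L ∧ ev g (p.1 * FreeMonoid.of a) = ev g p.2}

/-- `(A, g, L)` is a quasi-automatic structure of `S`. -/
def QuasiAutStruct {A S : Type*} [Semigroup S] (g : A → S) (L : Set (FreeMonoid A)) : Prop :=
  RatOnto g L ∧ IsRat (relEq g L) ∧ ∀ a : A, IsRat (relMul g L a)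

/-- `(A, g, L)` is an asynchronously automatic structure of `S`. -/
def AsyncAutStruct {A S : Type*} [Semigroup S] (g : A → S) (L : Set (FreeMonoid A)) : Prop :=
  RatOnto g L ∧ DetRec (markRel (relEq g L)) ∧ ∀ a : A, DetRec (markRel (relMul g L a))

end Pool.Agent.Lib.MP_7f7674_al
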