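import Mathlib

/-!
Regular languages through left quotients, and their closure properties.
-/

set_option autoImplicit false

namespace Pool.Agent.Lib.MP_7f7674_al

variable {α β : Type*}

/-- Left quotient. -/
def lq (L : Set (List α)) (x : List α) : Set (List α) := {y | x ++ y ∈ L}

@[simp] theorem mem_lq {L : Set (List α)} {x y : List α} : y ∈ lq L x ↔ x ++ y ∈ L := Iff.rfl

@[simp] theorem lq_nil (L : Set (List α)) : lq L [] = L := rfl

theorem lq_append (L : Set (List α)) (x y : List α) : lq L (x ++ y) = lq (lq L x) y := by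
  ext z; simp [lq]

theorem lq_congr {L : Set (List α)} {x x' : List α} (h : lq L x = lq L x') (y : List α) :
    lq L (x ++ y) = lq L (x' ++ y) := by
  rw [lq_append, lq_append, h]

theorem mem_of_lq {L : Set (List α)} {x x' y : List α} (h : lq L x = lq L x') (hy : x ++ y ∈ L) :
    x' ++ y ∈ L := by
  have : y ∈ lq L x := hy
  rw [h] at this
  exact this

/-- Regular languages: finitely many left quotients. -/
def Reg (L : Set (List α)) : Prop := (Set.range (lq L)).Finite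

theorem reg_of_cover {L : Set (List α)} (F : Set (Set (List α))) (hF : F.Finite)
    (h : ∀ x y, x ++ y ∈ L → ∃ P ∈ F, y ∈ P ∧ ∀ y' ∈ P, x ++ y' ∈ L) : Reg L := by
  refine ((hF.finite_subsets).image Set.sUnion).subset ?_
  rintro _ ⟨x, rfl⟩
  refine ⟨{P | P ∈ F ∧ P ⊆ lq L x}, fun P hP => hP.1, ?_⟩
  ext y
  constructor
  · rintro ⟨P, hP, hy⟩
    exact hP.2 hy
  · intro hy
    obtain ⟨P, hP, hyP, hP'⟩ := h x y hy
    exact ⟨P, ⟨hP, hP'⟩, hyP⟩

theorem reg_of_state {σ : Type*} {L : Set (List α)} (st : List α → σ)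
    (hfin : (Set.range st).Finite)
    (h : ∀ x x', st x = st x' → ∀ y, x ++ y ∈ L → x' ++ y ∈ L) : Reg L := by
  refine reg_of_cover ((fun s => {y | ∀ x, st x = s → x ++ y ∈ L}) '' Set.range st)
    (hfin.image _) ?_
  intro x y hxy
  refine ⟨_, ⟨st x, ⟨x, rfl⟩, rfl⟩, fun x' hx' => h x x' hx'.symm y hxy, fun y' hy' => hy' x rfl⟩

theorem reg_of_rcong {σ : Type*} (κ : List α → σ) (hfin : (Set.range κ).Finite)
    (h : ∀ x y y', κ y = κ y' → κ (x ++ y) = κ (x ++ y')) (Φ : σ → Prop) :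
    Reg {s | Φ (κ s)} := by
  refine reg_of_cover ((fun k => {y | κ y = k}) '' Set.range κ) (hfin.image _) ?_
  intro x y hxy
  refine ⟨_, ⟨κ y, ⟨y, rfl⟩, rfl⟩, rfl, fun y' hy' => ?_⟩
  show Φ (κ (x ++ y'))
  rw [h x y' y hy']
  exact hxy

theorem finite_range_pair {γ σ τ : Type*} {f : γ → σ} {g : γ → τ} (hf : (Set.range f).Finite)
    (hg : (Set.range g).Finite) : (Set.range fun x => (f x, g x)).Finite :=
  (hf.prod hg).subset (by rintro _ ⟨x, rfl⟩; exact ⟨⟨x, rfl⟩, ⟨x, rfl⟩⟩)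

theorem Reg.compl {L : Set (List α)} (h : Reg L) : Reg Lᶜ :=
  reg_of_state (lq L) h fun _ _ hx _ hy hy' => hy (mem_of_lq hx.symm hy')

theorem Reg.inter {L L' : Set (List α)} (h : Reg L) (h' : Reg L') : Reg (L ∩ L') :=
  reg_of_state (fun x => (lq L x, lq L' x)) (finite_range_pair h h') fun _ _ hx _ hy =>
    ⟨mem_of_lq (congrArg Prod.fst hx) hy.1, mem_of_lq (congrArg Prod.snd hx) hy.2⟩

theorem Reg.union {L L' : Set (List α)} (h : Reg L) (h' : Reg L') : Reg (L ∪ L') :=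
  reg_of_state (fun x => (lq L x, lq L' x)) (finite_range_pair h h') fun _ _ hx _ hy =>
    hy.imp (mem_of_lq (congrArg Prod.fst hx)) (mem_of_lq (congrArg Prod.snd hx))

theorem reg_empty : Reg (∅ : Set (List α)) :=
  reg_of_cover ∅ Set.finite_empty fun _ _ h => h.elim

theorem Reg.biUnion {ι : Type*} {I : Set ι} (hI : I.Finite) {L : ι → Set (List α)}
    (h : ∀ i ∈ I, Reg (L i)) : Reg (⋃ i ∈ I, L i) := by
  induction I, hI using Set.Finite.induction_on with
  | empty => simpa using reg_empty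
  | insert _ _ ih =>
    rw [Set.biUnion_insert]
    exact (h _ (Set.mem_insert _ _)).union (ih fun i hi => h i (Set.mem_insert_of_mem _ hi))

theorem Reg.lq {L : Set (List α)} (h : Reg L) (x : List α) : Reg (lq L x) :=
  Set.Finite.subset h (by rintro _ ⟨y, rfl⟩; exact ⟨x ++ y, lq_append _ _ _⟩)

theorem Reg.fibre {L : Set (List α)} (h : Reg L) (P : Set (List α)) :
    Reg {z | MP_7f7674_al.lq L z = P} :=
  reg_of_state (MP_7f7674_al.lq L) h fun x x' hx y hy => by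
    show MP_7f7674_al.lq L (x' ++ y) = P
    rw [← lq_congr hx]; exact hy

theorem Reg.preimage {K : Set (List β)} (hK : Reg K) (f : List α → List β)
    (hf : ∀ x y, f (x ++ y) = f x ++ f y) : Reg (f ⁻¹' K) :=
  reg_of_state (fun x => MP_7f7674_al.lq K (f x))
    (Set.Finite.subset hK (by rintro _ ⟨y, rfl⟩; exact ⟨_, rfl⟩)) fun x x' hx y hy => by
    show f (x' ++ y) ∈ K
    have hy' : f (x ++ y) ∈ K := hy
    rw [hf] at hy' ⊢
    exact mem_of_lq hx hy'

theorem Reg.rq {L : Set (List α)} (h : Reg L) (s : List α) : Reg {x | x ++ s ∈ L} :=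
  reg_of_state (MP_7f7674_al.lq L) h fun x x' hx y hy => by
    show x' ++ y ++ s ∈ L
    have hy' : x ++ y ++ s ∈ L := hy
    rw [List.append_assoc] at hy' ⊢
    exact mem_of_lq hx hy'

theorem Reg.image_filterMap {K : Set (List α)} (hK : Reg K) (f : α → Option β) :
    Reg (List.filterMap f '' K) := by
  refine reg_of_cover ((fun P => List.filterMap f '' P) '' Set.range (MP_7f7674_al.lq K))
    (hK.image _) ?_
  rintro x y ⟨z, hz, hxy⟩
  obtain ⟨z1, z2, rfl, h1, h2⟩ := List.filterMap_eq_append_iff.1 hxy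
  refine ⟨_, ⟨_, ⟨z1, rfl⟩, rfl⟩, ⟨z2, hz, h2⟩, ?_⟩
  rintro _ ⟨w, hw, rfl⟩
  exact ⟨z1 ++ w, hw, by rw [List.filterMap_append, h1]⟩

theorem flatMap_split (c : α → List β) (z : List α) : ∀ x y : List β, z.flatMap c = x ++ y →
    ∃ z1 z2 s, z = z1 ++ z2 ∧ x ++ s = z1.flatMap c ∧ y = s ++ z2.flatMap c ∧
      (s = [] ∨ ∃ a ∈ z, s <:+ c a) := by
  induction z with
  | nil =>
    intro x y h
    obtain ⟨rfl, rfl⟩ := List.append_eq_nil_iff.1 h.symm
    exact ⟨[], [], [], rfl, rfl, rfl, Or.inl rfl⟩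
  | cons a z ih =>
    intro x y h
    rw [List.flatMap_cons] at h
    rcases List.append_eq_append_iff.1 h with ⟨x', rfl, h2⟩ | ⟨s, h1, rfl⟩
    · obtain ⟨z1, z2, s, rfl, h3, h4, h5⟩ := ih x' y h2
      exact ⟨a :: z1, z2, s, rfl, by rw [List.flatMap_cons, List.append_assoc, h3], h4,
        h5.imp id fun ⟨b, hb, hb'⟩ => ⟨b, List.mem_cons_of_mem _ hb, hb'⟩⟩
    · exact ⟨[a], z, s, rfl, by simp [h1], rfl, Or.inr ⟨a, by simp, x, h1.symm⟩⟩

theorem finite_suffixes (w : List α) : {s | s <:+ w}.Finite :=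
  (List.finite_toSet w.tails).subset fun s hs => (List.mem_tails s w).2 hs

theorem finite_prefixes (w : List α) : {s | s <+: w}.Finite :=
  (List.finite_toSet w.inits).subset fun s hs => (List.mem_inits s w).2 hs

theorem Reg.image_flatMap {K : Set (List α)} (hK : Reg K) (c : α → List β) {I : Set α}
    (hI : I.Finite) (hKI : ∀ z ∈ K, ∀ a ∈ z, a ∈ I) :
    Reg ((fun z : List α => z.flatMap c) '' K) := by
  have hS : ({[]} ∪ ⋃ a ∈ I, {s | s <:+ c a} : Set (List β)).Finite :=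
    (Set.finite_singleton _).union (hI.biUnion fun a _ => finite_suffixes _)
  refine reg_of_cover
    ((fun p : List β × Set (List α) => (fun w : List α => p.1 ++ w.flatMap c) '' p.2) ''
      (_ ×ˢ Set.range (MP_7f7674_al.lq K))) ((hS.prod hK).image _) ?_
  rintro x y ⟨z, hz, hxy⟩
  obtain ⟨z1, z2, s, rfl, h1, h2, h3⟩ := flatMap_split c z x y hxy
  refine ⟨_, ⟨(s, MP_7f7674_al.lq K z1), ⟨?_, z1, rfl⟩, rfl⟩, ⟨z2, hz, h2.symm⟩, ?_⟩
  · rcases h3 with rfl | ⟨a, ha, ha'⟩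
    · exact Or.inl rfl
    · exact Or.inr (Set.mem_biUnion (hKI _ hz a ha) ha')
  · rintro _ ⟨w, hw, rfl⟩
    exact ⟨z1 ++ w, hw, by simp [← h1]⟩

/-- Concatenation of languages. -/
def cat (L L' : Set (List α)) : Set (List α) := {w | ∃ a ∈ L, ∃ b ∈ L', w = a ++ b}

theorem Reg.cat {L L' : Set (List α)} (h : Reg L) (h' : Reg L') : Reg (cat L L') := by
  refine reg_of_cover (((fun P => MP_7f7674_al.cat P L') '' Set.range (MP_7f7674_al.lq L)) ∪
    Set.range (MP_7f7674_al.lq L')) ((h.image _).union h') ?_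
  rintro x y ⟨a, ha, b, hb, hxy⟩
  rcases List.append_eq_append_iff.1 hxy with ⟨a', rfl, rfl⟩ | ⟨c, rfl, rfl⟩
  · refine ⟨_, Or.inl ⟨_, ⟨x, rfl⟩, rfl⟩, ⟨a', ha, b, hb, rfl⟩, ?_⟩
    rintro _ ⟨a2, ha2, b2, hb2, rfl⟩
    exact ⟨x ++ a2, ha2, b2, hb2, by simp⟩
  · refine ⟨_, Or.inr ⟨c, rfl⟩, hb, fun y' hy' => ⟨a, ha, c ++ y', hy', by simp⟩⟩

/-- Kleene star. -/
def kstar (L : Set (List α)) : Set (List α) :=
  {w | ∃ l : List (List α), (∀ v ∈ l, v ∈ L) ∧ w = l.flatten}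

theorem nil_mem_kstar (L : Set (List α)) : [] ∈ kstar L := ⟨[], by simp, rfl⟩

theorem kstar_append {L : Set (List α)} {x y : List α} (hx : x ∈ kstar L) (hy : y ∈ kstar L) :
    x ++ y ∈ kstar L := by
  obtain ⟨l, hl, rfl⟩ := hx
  obtain ⟨l', hl', rfl⟩ := hy
  refine ⟨l ++ l', fun v hv => ?_, by simp⟩
  rcases List.mem_append.1 hv with h | h
  exacts [hl v h, hl' v h]

theorem mem_kstar_of_mem {L : Set (List α)} {x : List α} (hx : x ∈ L) : x ∈ kstar L :=
  ⟨[x], by simpa using hx, by simp⟩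

theorem Reg.kstar {L : Set (List α)} (h : Reg L) : Reg (kstar L) := by
  refine reg_of_cover (((fun P => MP_7f7674_al.cat P (MP_7f7674_al.kstar L)) ''
    Set.range (MP_7f7674_al.lq L)) ∪ {MP_7f7674_al.kstar L}) ((h.image _).union
      (Set.finite_singleton _)) ?_
  rintro x y ⟨l, hl, hxy⟩
  have key : ∀ (l : List (List α)), (∀ v ∈ l, v ∈ L) → ∀ x y, x ++ y = l.flatten →
      (x ∈ MP_7f7674_al.kstar L ∧ y ∈ MP_7f7674_al.kstar L) ∨
      ∃ x1 x2 y1 y2, x = x1 ++ x2 ∧ y = y1 ++ y2 ∧ x1 ∈ MP_7f7674_al.kstar L ∧ x2 ++ y1 ∈ L ∧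
        y2 ∈ MP_7f7674_al.kstar L := by
    intro l
    induction l with
    | nil =>
      intro _ x y hxy
      obtain ⟨rfl, rfl⟩ := List.append_eq_nil_iff.1 hxy
      exact Or.inl ⟨nil_mem_kstar _, nil_mem_kstar _⟩
    | cons v l ih =>
      intro hl x y hxy
      have hv : v ∈ L := hl v (by simp)
      have hl' : ∀ v ∈ l, v ∈ L := fun w hw => hl w (by simp [hw])
      rw [List.flatten_cons] at hxy
      rcases List.append_eq_append_iff.1 hxy with ⟨a', rfl, rfl⟩ | ⟨c, rfl, h2⟩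
      · exact Or.inr ⟨[], x, a', l.flatten, rfl, rfl, nil_mem_kstar _, hv, l, hl', rfl⟩
      · rcases ih hl' c y h2.symm with ⟨h3, h4⟩ | ⟨x1, x2, y1, y2, rfl, rfl, h3, h4, h5⟩
        · exact Or.inl ⟨kstar_append (mem_kstar_of_mem hv) h3, h4⟩
        · exact Or.inr ⟨v ++ x1, x2, y1, y2, by simp, rfl,
            kstar_append (mem_kstar_of_mem hv) h3, h4, h5⟩
  rcases key l hl x y hxy with ⟨h3, h4⟩ | ⟨x1, x2, y1, y2, rfl, rfl, h3, h4, h5⟩
  · exact ⟨_, Or.inr rfl, h4, fun y' hy' => kstar_append h3 hy'⟩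
  · refine ⟨_, Or.inl ⟨_, ⟨x2, rfl⟩, rfl⟩, ⟨y1, h4, y2, h5, rfl⟩, ?_⟩
    rintro _ ⟨a, ha, b, hb, rfl⟩
    have := kstar_append h3 (kstar_append (mem_kstar_of_mem ha) hb)
    simpa using this

theorem reg_singleton (w : List α) : Reg {w} := by
  refine reg_of_cover ((fun s => {s}) '' {s | s <:+ w}) ((finite_suffixes w).image _) ?_
  intro x y hxy
  refine ⟨_, ⟨y, ⟨x, hxy⟩, rfl⟩, rfl, ?_⟩
  rintro _ rfl
  exact hxy

theorem reg_finite {L : Set (List α)} (h : L.Finite) : Reg L := by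
  have := Reg.biUnion h (L := fun w => ({w} : Set (List α))) fun w _ => reg_singleton w
  simpa using this

/-- A monotone property holding eventually at each point of a finite set holds uniformly. -/
theorem exists_uniform {γ : Type*} {T : Set γ} (hT : T.Finite) (P : γ → ℕ → Prop)
    (hmono : ∀ t n m, n ≤ m → P t n → P t m) (h : ∀ t ∈ T, ∃ n, P t n) :
    ∃ n, ∀ t ∈ T, P t n := by
  induction T, hT using Set.Finite.induction_on with
  | empty => exact ⟨0, by simp⟩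
  | insert _ _ ih =>
    obtain ⟨n, hn⟩ := ih fun t ht => h t (Set.mem_insert_of_mem _ ht)
    obtain ⟨m, hm⟩ := h _ (Set.mem_insert _ _)
    refine ⟨max n m, ?_⟩
    rintro t (rfl | ht)
    · exact hmono _ _ _ (le_max_right _ _) hm
    · exact hmono _ _ _ (le_max_left _ _) (hn t ht)

end Pool.Agent.Lib.MP_7f7674_al
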