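import Mathlib
import Pool.Agent.Lib.MP_7f7674_al.Defs
import Pool.Agent.Lib.MP_7f7674_al.Reg

/-!
Kleene's theorem in both directions, and rational relations as two-tape readings of regular
languages (Nivat's theorem), with closure under composition.
-/

set_option autoImplicit false

open scoped Pointwise

namespace Pool.Agent.Lib.MP_7f7674_al

variable {α β : Type*}

theorem IsRat.exists_reg {M : Type*} [Monoid M] (φ : List α → M) (h1 : φ [] = 1)
    (hφ : ∀ x y, φ (x ++ y) = φ x * φ y) (hs : Function.Surjective φ) {X : Set M}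
    (hX : IsRat X) : ∃ K, Reg K ∧ X = φ '' K := by
  induction hX with
  | @finite X hX =>
    obtain ⟨K, -, hK, rfl⟩ := Set.Finite.exists_subset_finite_image_eq (s := Set.univ) (f := φ) hX
      (by rw [Set.image_univ, hs.range_eq]; exact Set.subset_univ _)
    exact ⟨K, reg_finite hK, rfl⟩
  | union _ _ ih ih' =>
    obtain ⟨K, hK, rfl⟩ := ih
    obtain ⟨K', hK', rfl⟩ := ih'
    exact ⟨K ∪ K', hK.union hK', (Set.image_union _ _ _).symm⟩
  | mul _ _ ih ih' =>
    obtain ⟨K, hK, rfl⟩ := ih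
    obtain ⟨K', hK', rfl⟩ := ih'
    refine ⟨cat K K', hK.cat hK', ?_⟩
    ext m
    constructor
    · rintro ⟨_, ⟨a, ha, rfl⟩, _, ⟨b, hb, rfl⟩, rfl⟩
      exact ⟨a ++ b, ⟨a, ha, b, hb, rfl⟩, hφ a b⟩
    · rintro ⟨_, ⟨a, ha, b, hb, rfl⟩, rfl⟩
      exact ⟨_, ⟨a, ha, rfl⟩, _, ⟨b, hb, rfl⟩, (hφ a b).symm⟩
  | star _ ih =>
    obtain ⟨K, hK, rfl⟩ := ih
    refine ⟨kstar K, hK.kstar, ?_⟩
    ext m
    rw [Set.mem_iUnion]
    constructor
    · rintro ⟨n, hn⟩
      induction n generalizing m with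
      | zero =>
        rw [pow_zero, Set.mem_one] at hn
        exact ⟨[], nil_mem_kstar _, h1.trans hn.symm⟩
      | succ n ih =>
        rw [pow_succ] at hn
        obtain ⟨a, ha, _, ⟨b, hb, rfl⟩, rfl⟩ := hn
        obtain ⟨a', ha', rfl⟩ := ih a ha
        exact ⟨a' ++ b, kstar_append ha' (mem_kstar_of_mem hb), hφ _ _⟩
    · rintro ⟨_, ⟨l, hl, rfl⟩, rfl⟩
      induction l with
      | nil => exact ⟨0, by rw [pow_zero, Set.mem_one]; exact h1⟩
      | cons v l ih =>
        obtain ⟨n, hn⟩ := ih fun w hw => hl w (by simp [hw])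
        refine ⟨n + 1, ?_⟩
        rw [pow_succ', List.flatten_cons, hφ]
        exact Set.mul_mem_mul ⟨v, hl v (by simp), rfl⟩ hn

/-- Walks of a deterministic automaton whose inner states lie in `T`. -/
inductive Walk {σ : Type*} (δ : σ → α → σ) (T : Set σ) : σ → List α → σ → Prop
  | nil (p : σ) : Walk δ T p [] p
  | one (p : σ) (a : α) : Walk δ T p [a] (δ p a)
  | cons {p q : σ} {a : α} {w : List α} : δ p a ∈ T → Walk δ T (δ p a) w q → Walk δ T p (a :: w) q

theorem Walk.mono {σ : Type*} {δ : σ → α → σ} {T T' : Set σ} (hT : T ⊆ T') {p q : σ}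
    {w : List α} (h : Walk δ T p w q) : Walk δ T' p w q := by
  induction h with
  | nil p => exact .nil p
  | one p a => exact .one p a
  | cons h1 _ ih => exact .cons (hT h1) ih

theorem Walk.append {σ : Type*} {δ : σ → α → σ} {T : Set σ} {p r q : σ} {x y : List α}
    (h : Walk δ T p x r) (hr : r ∈ T) (h' : Walk δ T r y q) : Walk δ T p (x ++ y) q := by
  induction h with
  | nil p => exact h'
  | one p a => exact .cons hr h'
  | cons h1 _ ih => exact .cons h1 (ih hr h')

theorem Walk.eq_foldl {σ : Type*} {δ : σ → α → σ} {T : Set σ} {p q : σ} {w : List α}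
    (h : Walk δ T p w q) : q = w.foldl δ p := by
  induction h with
  | nil p => rfl
  | one p a => rfl
  | cons _ _ ih => exact ih

/-- The words of walks, in the free monoid. -/
def walks {σ : Type*} (δ : σ → α → σ) (T : Set σ) (p q : σ) : Set (FreeMonoid α) :=
  {w | Walk δ T p (FreeMonoid.toList w) q}

theorem walks_insert {σ : Type*} (δ : σ → α → σ) (T : Set σ) (r p q : σ) :
    walks δ (insert r T) p q =
      walks δ T p q ∪ walks δ T p r * ((⋃ n : ℕ, walks δ T r r ^ n) * walks δ T r q) := by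
  apply Set.Subset.antisymm
  · intro w hw
    have key : ∀ {p q : σ} {w : List α}, Walk δ (insert r T) p w q →
        FreeMonoid.ofList w ∈
          walks δ T p q ∪ walks δ T p r * ((⋃ n : ℕ, walks δ T r r ^ n) * walks δ T r q) := by
      intro p q w h
      induction h with
      | nil p => exact Or.inl (Walk.nil p)
      | one p a => exact Or.inl (Walk.one p a)
      | @cons p q a w h1 _ ih =>
        rcases h1 with h1 | h1
        · have ha : FreeMonoid.of a ∈ walks δ T p r := h1 ▸ Walk.one p a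
          rw [h1] at ih
          rcases ih with ih | ⟨w1, h2, _, ⟨w2, h3, w3, h4, rfl⟩, h5⟩
          · refine Or.inr ⟨_, ha, _, ⟨1, Set.mem_iUnion.2 ⟨0, by simp⟩, _, ih, rfl⟩, ?_⟩
            simp [FreeMonoid.ofList_cons]
          · obtain ⟨n, hn⟩ := Set.mem_iUnion.1 h3
            refine Or.inr ⟨_, ha, _, ⟨w1 * w2, Set.mem_iUnion.2 ⟨n + 1, ?_⟩, w3, h4, rfl⟩, ?_⟩
            · rw [pow_succ']; exact Set.mul_mem_mul h2 hn
            · simp only at h5
              simp only [FreeMonoid.ofList_cons, ← h5, mul_assoc]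
        · rcases ih with ih | ⟨w1, h2, w2, h3, h5⟩
          · exact Or.inl (Walk.cons h1 ih)
          · refine Or.inr ⟨FreeMonoid.of a * w1, Walk.cons h1 h2, w2, h3, ?_⟩
            simp only at h5
            simp only [FreeMonoid.ofList_cons, ← h5, mul_assoc]
    exact key hw
  · have hpow : ∀ n : ℕ, ∀ w ∈ walks δ T r r ^ n,
        Walk δ (insert r T) r (FreeMonoid.toList w) r := by
      intro n
      induction n with
      | zero =>
        intro w hw
        rw [pow_zero, Set.mem_one] at hw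
        subst hw
        exact Walk.nil r
      | succ n ih =>
        intro w hw
        rw [pow_succ] at hw
        obtain ⟨a, ha, b, hb, rfl⟩ := hw
        exact (ih a ha).append (Set.mem_insert _ _) (Walk.mono (Set.subset_insert _ _) hb)
    rintro w (hw | ⟨w1, h1, _, ⟨w2, h2, w3, h3, rfl⟩, rfl⟩)
    · exact Walk.mono (Set.subset_insert _ _) hw
    · obtain ⟨n, hn⟩ := Set.mem_iUnion.1 h2
      exact (Walk.mono (Set.subset_insert _ _) h1).append (Set.mem_insert _ _)
        ((hpow n _ hn).append (Set.mem_insert _ _) (Walk.mono (Set.subset_insert _ _) h3))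

theorem isRat_walks [Finite α] {σ : Type*} (δ : σ → α → σ) {T : Set σ} (hT : T.Finite) :
    ∀ p q, IsRat (walks δ T p q) := by
  induction T, hT using Set.Finite.induction_on with
  | empty =>
    intro p q
    refine IsRat.finite (((Set.finite_range FreeMonoid.of).insert 1).subset ?_)
    intro w hw
    have key : ∀ {p q : σ} {l : List α}, Walk δ ∅ p l q →
        FreeMonoid.ofList l ∈ insert (1 : FreeMonoid α) (Set.range FreeMonoid.of) := by
      intro p q l h
      cases h with
      | nil => exact Or.inl rfl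
      | one _ a => exact Or.inr ⟨a, rfl⟩
      | cons h1 _ => exact h1.elim
    exact key hw
  | insert _ _ ih =>
    intro p q
    rw [walks_insert]
    exact (ih _ _).union ((ih _ _).mul ((ih _ _).star.mul (ih _ _)))

theorem IsRat.biUnion {M ι : Type*} [Monoid M] {I : Set ι} (hI : I.Finite) {X : ι → Set M}
    (h : ∀ i ∈ I, IsRat (X i)) : IsRat (⋃ i ∈ I, X i) := by
  induction I, hI using Set.Finite.induction_on with
  | empty => simpa using IsRat.finite Set.finite_empty
  | insert _ _ ih =>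
    rw [Set.biUnion_insert]
    exact (h _ (Set.mem_insert _ _)).union (ih fun i hi => h i (Set.mem_insert_of_mem _ hi))

theorem Reg.isRat [Finite α] {K : Set (List α)} (hK : Reg K) :
    IsRat {u : FreeMonoid α | FreeMonoid.toList u ∈ K} := by
  let δ : Set (List α) → α → Set (List α) := fun P a => MP_7f7674_al.lq P [a]
  have hfold : ∀ (w : List α) (P : Set (List α)), w.foldl δ P = MP_7f7674_al.lq P w := by
    intro w
    induction w with
    | nil => intro P; rfl
    | cons a w ih => intro P; rw [List.foldl_cons, ih, ← lq_append]; rfl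
  have hwalk : ∀ (w x : List α), Walk δ (Set.range (MP_7f7674_al.lq K)) (MP_7f7674_al.lq K x) w
      (MP_7f7674_al.lq K (x ++ w)) := by
    intro w
    induction w with
    | nil => intro x; rw [List.append_nil]; exact Walk.nil _
    | cons a w ih =>
      intro x
      have h1 : δ (MP_7f7674_al.lq K x) a = MP_7f7674_al.lq K (x ++ [a]) := (lq_append _ _ _).symm
      refine Walk.cons ⟨_, h1.symm⟩ ?_
      rw [h1]
      simpa using ih (x ++ [a])
  have : {u : FreeMonoid α | FreeMonoid.toList u ∈ K} =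
      ⋃ q ∈ {q ∈ Set.range (MP_7f7674_al.lq K) | [] ∈ q},
        walks δ (Set.range (MP_7f7674_al.lq K)) K q := by
    ext u
    simp only [Set.mem_ofPred_eq, Set.mem_iUnion, exists_prop]
    constructor
    · intro hu
      exact ⟨_, ⟨⟨FreeMonoid.toList u, rfl⟩, by simpa using hu⟩, hwalk _ []⟩
    · rintro ⟨q, ⟨-, hq⟩, hw⟩
      have := Walk.eq_foldl hw
      rw [hfold] at this
      subst this
      simpa using hq
  rw [this]
  exact IsRat.biUnion (Set.Finite.subset hK fun _ h => h.1) fun q _ => isRat_walks δ hK _ _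

/-- First tape of a two-tape word. -/
def p1 (z : List (α ⊕ β)) : List α := z.filterMap Sum.getLeft?

/-- Second tape of a two-tape word. -/
def p2 (z : List (α ⊕ β)) : List β := z.filterMap Sum.getRight?

@[simp] theorem p1_nil : p1 ([] : List (α ⊕ β)) = [] := rfl
@[simp] theorem p2_nil : p2 ([] : List (α ⊕ β)) = [] := rfl
@[simp] theorem p1_inl (a : α) (z : List (α ⊕ β)) : p1 (Sum.inl a :: z) = a :: p1 z := rfl
@[simp] theorem p1_inr (b : β) (z : List (α ⊕ β)) : p1 (Sum.inr b :: z) = p1 z := rfl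
@[simp] theorem p2_inl (a : α) (z : List (α ⊕ β)) : p2 (Sum.inl a :: z) = p2 z := rfl
@[simp] theorem p2_inr (b : β) (z : List (α ⊕ β)) : p2 (Sum.inr b :: z) = b :: p2 z := rfl
@[simp] theorem p1_append (x y : List (α ⊕ β)) : p1 (x ++ y) = p1 x ++ p1 y :=
  List.filterMap_append
@[simp] theorem p2_append (x y : List (α ⊕ β)) : p2 (x ++ y) = p2 x ++ p2 y :=
  List.filterMap_append
@[simp] theorem p1_map_inl (x : List α) : p1 (x.map (Sum.inl : α → α ⊕ β)) = x := by
  induction x <;> simp_all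
@[simp] theorem p2_map_inl (x : List α) : p2 (x.map (Sum.inl : α → α ⊕ β)) = [] := by
  induction x <;> simp_all
@[simp] theorem p1_map_inr (x : List β) : p1 (x.map (Sum.inr : β → α ⊕ β)) = [] := by
  induction x <;> simp_all
@[simp] theorem p2_map_inr (x : List β) : p2 (x.map (Sum.inr : β → α ⊕ β)) = x := by
  induction x <;> simp_all
@[simp] theorem p1_swap (z : List (α ⊕ β)) : p1 (z.map Sum.swap) = p2 z := by
  induction z with
  | nil => rfl
  | cons g z ih => cases g <;> simp_all
@[simp] theorem p2_swap (z : List (α ⊕ β)) : p2 (z.map Sum.swap) = p1 z := by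
  induction z with
  | nil => rfl
  | cons g z ih => cases g <;> simp_all

theorem p1_split {z : List (α ⊕ β)} {x y : List α} (h : p1 z = x ++ y) :
    ∃ z1 z2, z = z1 ++ z2 ∧ p1 z1 = x ∧ p1 z2 = y :=
  List.filterMap_eq_append_iff.1 h

theorem p2_split {z : List (α ⊕ β)} {x y : List β} (h : p2 z = x ++ y) :
    ∃ z1 z2, z = z1 ++ z2 ∧ p2 z1 = x ∧ p2 z2 = y :=
  List.filterMap_eq_append_iff.1 h

/-- The relation read off a language of two-tape words. -/
def Rel (K : Set (List (α ⊕ β))) (u : List α) (v : List β) : Prop := ∃ z ∈ K, p1 z = u ∧ p2 z = v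

/-- Relations read off a regular language of two-tape words. -/
def NRat (R : List α → List β → Prop) : Prop := ∃ K, Reg K ∧ ∀ u v, R u v ↔ Rel K u v

theorem IsRat.nrat {X : Set (FreeMonoid α × FreeMonoid β)} (hX : IsRat X) :
    NRat fun u v => (FreeMonoid.ofList u, FreeMonoid.ofList v) ∈ X := by
  obtain ⟨K, hK, rfl⟩ := hX.exists_reg
    (fun z : List (α ⊕ β) => (FreeMonoid.ofList (p1 z), FreeMonoid.ofList (p2 z))) rfl
    (fun x y => by simp [FreeMonoid.ofList_append])
    (fun p => ⟨(FreeMonoid.toList p.1).map Sum.inl ++ (FreeMonoid.toList p.2).map Sum.inr,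
      by simp⟩)
  refine ⟨K, hK, fun u v => ⟨?_, ?_⟩⟩
  · rintro ⟨z, hz, h⟩
    exact ⟨z, hz, FreeMonoid.ofList.injective (congrArg Prod.fst h),
      FreeMonoid.ofList.injective (congrArg Prod.snd h)⟩
  · rintro ⟨z, hz, rfl, rfl⟩
    exact ⟨z, hz, rfl⟩

theorem NRat.restrict {R : List α → List β → Prop} (h : NRat R) {L : Set (List α)}
    {L' : Set (List β)} (hL : Reg L) (hL' : Reg L') : NRat fun u v => R u v ∧ u ∈ L ∧ v ∈ L' := by
  obtain ⟨K, hK, h⟩ := h
  refine ⟨K ∩ (p1 ⁻¹' L ∩ p2 ⁻¹' L'),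
    hK.inter ((hL.preimage _ p1_append).inter (hL'.preimage _ p2_append)), fun u v => ⟨?_, ?_⟩⟩
  · rintro ⟨h1, h2, h3⟩
    obtain ⟨z, hz, rfl, rfl⟩ := (h _ _).1 h1
    exact ⟨z, ⟨hz, h2, h3⟩, rfl, rfl⟩
  · rintro ⟨z, ⟨hz, h2, h3⟩, rfl, rfl⟩
    exact ⟨(h _ _).2 ⟨z, hz, rfl, rfl⟩, h2, h3⟩

section Comp

variable {γ : Type*}

/-- Tapes one and two of a three-tape word. -/
def t12 : (α ⊕ γ) ⊕ β → Option (α ⊕ β)
  | .inl (.inl a) => some (.inl a)
  | .inl (.inr _) => none
  | .inr b => some (.inr b)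

/-- Tapes two and three of a three-tape word. -/
def t23 : (α ⊕ γ) ⊕ β → Option (β ⊕ γ)
  | .inl (.inl _) => none
  | .inl (.inr c) => some (.inr c)
  | .inr b => some (.inl b)

theorem three_tapes (w : List ((α ⊕ γ) ⊕ β)) :
    p1 (p1 w) = p1 (w.filterMap t12) ∧ p2 (p1 w) = p2 (w.filterMap t23) ∧
      p2 (w.filterMap t12) = p1 (w.filterMap t23) := by
  induction w with
  | nil => simp
  | cons g w ih => rcases g with (a | c) | b <;> simp_all [t12, t23]

theorem merge_tapes : ∀ (n : ℕ) (z1 : List (α ⊕ β)) (z2 : List (β ⊕ γ)),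
    z1.length + z2.length = n → p2 z1 = p1 z2 →
      ∃ w : List ((α ⊕ γ) ⊕ β), w.filterMap t12 = z1 ∧ w.filterMap t23 = z2 := by
  intro n
  induction n using Nat.strong_induction_on with
  | _ n ih =>
    intro z1 z2 hn h
    rcases z1 with _ | ⟨a | b, z1⟩
    · rcases z2 with _ | ⟨b' | c, z2⟩
      · exact ⟨[], rfl, rfl⟩
      · simp at h
      · obtain ⟨w, h1, h2⟩ := ih _ (by simp at hn ⊢; omega) [] z2 rfl (by simpa using h)
        exact ⟨.inl (.inr c) :: w, h1, congrArg (List.cons _) h2⟩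
    · obtain ⟨w, h1, h2⟩ := ih _ (by simp at hn ⊢; omega) z1 z2 rfl (by simpa using h)
      exact ⟨.inl (.inl a) :: w, congrArg (List.cons _) h1, h2⟩
    · rcases z2 with _ | ⟨b' | c, z2⟩
      · simp at h
      · simp only [p2_inr, p1_inl, List.cons.injEq] at h
        obtain ⟨rfl, h⟩ := h
        obtain ⟨w, h1, h2⟩ := ih _ (by simp at hn ⊢; omega) z1 z2 rfl h
        exact ⟨.inr b :: w, congrArg (List.cons _) h1, congrArg (List.cons _) h2⟩
      · obtain ⟨w, h1, h2⟩ := ih _ (by simp at hn ⊢; omega) (.inr b :: z1) z2 rfl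
          (by simpa using h)
        exact ⟨.inl (.inr c) :: w, h1, congrArg (List.cons _) h2⟩

theorem NRat.comp {R : List α → List β → Prop} {R' : List β → List γ → Prop} (h : NRat R)
    (h' : NRat R') : NRat fun u w => ∃ v, R u v ∧ R' v w := by
  obtain ⟨K, hK, h⟩ := h
  obtain ⟨K', hK', h'⟩ := h'
  refine ⟨List.filterMap Sum.getLeft? ''
      ((List.filterMap t12 ⁻¹' K) ∩ (List.filterMap t23 ⁻¹' K')),
    ((hK.preimage _ fun _ _ => List.filterMap_append).inter
      (hK'.preimage _ fun _ _ => List.filterMap_append)).image_filterMap _, fun u w => ⟨?_, ?_⟩⟩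
  · rintro ⟨v, h1, h2⟩
    obtain ⟨z1, hz1, rfl, rfl⟩ := (h _ _).1 h1
    obtain ⟨z2, hz2, h3, rfl⟩ := (h' _ _).1 h2
    obtain ⟨w, rfl, rfl⟩ := merge_tapes _ z1 z2 rfl h3.symm
    exact ⟨p1 w, ⟨w, ⟨hz1, hz2⟩, rfl⟩, (three_tapes w).1, (three_tapes w).2.1⟩
  · rintro ⟨_, ⟨w, ⟨hz1, hz2⟩, rfl⟩, rfl, rfl⟩
    exact ⟨p2 (w.filterMap t12), (h _ _).2 ⟨_, hz1, (three_tapes w).1.symm, rfl⟩,
      (h' _ _).2 ⟨_, hz2, (three_tapes w).2.2.symm, (three_tapes w).2.1.symm⟩⟩

end Comp

end Pool.Agent.Lib.MP_7f7674_al
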