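import Mathlib
import Pool.Agent.Lib.MP_7f7674_al.Kleene

/-!
The pumping argument: two equivalent words with a common beginning whose endings have the same
right type are read with bounded lag along the common beginning.
-/

set_option autoImplicit false

namespace Pool.Agent.Lib.MP_7f7674_al

variable {A : Type*}

theorem eq_map_inl {c : List (A ⊕ A)} (h : p2 c = []) : c = (p1 c).map Sum.inl := by
  induction c with
  | nil => rfl
  | cons g c ih =>
    cases g with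
    | inl a => simp only [p2_inl] at h; simp [← ih h]
    | inr b => simp at h

theorem split_inl (c : List (A ⊕ A)) : (∃ x : List A, c = x.map Sum.inl) ∨
    ∃ (x : List A) (b : A) (c' : List (A ⊕ A)), c = x.map Sum.inl ++ Sum.inr b :: c' := by
  induction c with
  | nil => exact Or.inl ⟨[], rfl⟩
  | cons g c ih =>
    cases g with
    | inl a =>
      rcases ih with ⟨x, rfl⟩ | ⟨x, b, c', rfl⟩
      · exact Or.inl ⟨a :: x, rfl⟩
      · exact Or.inr ⟨a :: x, b, c', rfl⟩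
    | inr b => exact Or.inr ⟨[], b, c, rfl⟩

/-- Words read on the first tape along an accepting run with a cycle reading the first tape only. -/
def Bad (K : Set (List (A ⊕ A))) : Set (List A) :=
  {u | ∃ (z1 : List (A ⊕ A)) (x : List A) (z2 : List (A ⊕ A)), x ≠ [] ∧
    lq K (z1 ++ x.map Sum.inl) = lq K z1 ∧ z1 ++ x.map Sum.inl ++ z2 ∈ K ∧
    p1 (z1 ++ x.map Sum.inl ++ z2) = u}

theorem reg_bad {K : Set (List (A ⊕ A))} (hK : Reg K) : Reg (Bad K) := by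
  have : Bad K = List.filterMap Sum.getLeft? '' ⋃ P ∈ Set.range (lq K),
      cat (cat {z | lq K z = P} ({[]}ᶜ ∩ (p2 ⁻¹' {[]} ∩ {c | lq P c = P}))) P := by
    ext u
    constructor
    · rintro ⟨z1, x, z2, hx, h1, h2, rfl⟩
      refine ⟨_, Set.mem_biUnion (x := lq K z1) ⟨z1, rfl⟩
        ⟨_, ⟨z1, rfl, x.map Sum.inl, ⟨by simpa using hx, by simp, ?_⟩, rfl⟩, z2, ?_, rfl⟩, rfl⟩
      · show lq (lq K z1) _ = _
        rw [← lq_append, h1]
      · exact mem_of_lq h1 h2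
    · rintro ⟨_, hz, rfl⟩
      obtain ⟨_, ⟨z0, rfl⟩, _, ⟨z1, h1, c, ⟨h2, h3, h4⟩, rfl⟩, z2, h5, rfl⟩ :=
        Set.mem_iUnion₂.1 hz
      have h1' : lq K z1 = lq K z0 := h1
      have h4' : lq (lq K z0) c = lq K z0 := h4
      have hc := eq_map_inl (c := c) h3
      have h6 : lq K (z1 ++ c) = lq K z1 := by rw [lq_append, h1', h4']
      refine ⟨z1, p1 c, z2, fun h => h2 ?_, by rw [← hc]; exact h6, ?_, by rw [← hc]; rfl⟩
      · rw [hc, h]; rfl
      · rw [← hc]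
        exact mem_of_lq h6.symm (mem_of_lq h1'.symm h5)
  rw [this]
  refine Reg.image_filterMap (Reg.biUnion hK ?_) _
  rintro _ ⟨z, rfl⟩
  exact ((hK.fibre _).cat ((reg_singleton _).compl.inter
    (((reg_singleton _).preimage _ p2_append).inter ((hK.lq z).fibre _)))).cat (hK.lq z)

theorem take_split {γ : Type*} (x : List γ) {i j : ℕ} (hij : i < j) (hj : j ≤ x.length) :
    ∃ m, m ≠ [] ∧ x.take j = x.take i ++ m := by
  obtain ⟨m, hm⟩ := List.take_prefix_take_left (l := x) hij.le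
  refine ⟨m, fun h => ?_, hm.symm⟩
  have := congrArg List.length hm
  simp [h] at this
  omega

theorem run_bound {K : Set (List (A ⊕ A))} (hK : Reg K) : ∃ N : ℕ,
    ∀ (z1 : List (A ⊕ A)) (x : List A) (z2 : List (A ⊕ A)), z1 ++ x.map Sum.inl ++ z2 ∈ K →
      p1 (z1 ++ x.map Sum.inl ++ z2) ∉ Bad K → x.length ≤ N := by
  classical
  refine ⟨hK.toFinset.card, fun z1 x z2 hz hbad => ?_⟩
  by_contra hlt
  push Not at hlt
  obtain ⟨i, hi, j, hj, hij, h⟩ := Finset.exists_ne_map_eq_of_card_lt_of_maps_to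
    (s := Finset.range (hK.toFinset.card + 1)) (t := hK.toFinset) (by simp)
    (f := fun i => lq K (z1 ++ (x.take i).map Sum.inl)) (fun i _ => by simp)
  simp only [Finset.mem_range] at hi hj
  wlog hlt' : i < j generalizing i j
  · exact this j i hij.symm h.symm hj hi (by omega)
  obtain ⟨m, hm, hm'⟩ := take_split x hlt' (by omega)
  have hx : z1 ++ x.map Sum.inl ++ z2 =
      (z1 ++ (x.take i).map Sum.inl) ++ m.map Sum.inl ++ ((x.drop j).map Sum.inl ++ z2) := by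
    conv_lhs => rw [← List.take_append_drop j x, hm']
    simp
  apply hbad
  refine ⟨z1 ++ (x.take i).map Sum.inl, m, (x.drop j).map Sum.inl ++ z2, hm, ?_, hx ▸ hz,
    by rw [hx]⟩
  rw [h, hm']
  simp

theorem seg_bound {K : Set (List (A ⊕ A))} (hK : Reg K) : ∃ N : ℕ,
    ∀ (z1 c z2 : List (A ⊕ A)), z1 ++ c ++ z2 ∈ K → p1 (z1 ++ c ++ z2) ∉ Bad K →
      (p1 c).length ≤ N * ((p2 c).length + 1) := by
  obtain ⟨N, hN⟩ := run_bound hK
  refine ⟨N, ?_⟩
  suffices h : ∀ (k : ℕ) (z1 c z2 : List (A ⊕ A)), (p2 c).length = k → z1 ++ c ++ z2 ∈ K →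
      p1 (z1 ++ c ++ z2) ∉ Bad K → (p1 c).length ≤ N * (k + 1) from
    fun z1 c z2 => h _ z1 c z2 rfl
  intro k
  induction k with
  | zero =>
    intro z1 c z2 hk hz hb
    rcases split_inl c with ⟨x, rfl⟩ | ⟨x, b, c', rfl⟩
    · simpa using hN z1 x z2 hz hb
    · simp at hk
  | succ k ih =>
    intro z1 c z2 hk hz hb
    rcases split_inl c with ⟨x, rfl⟩ | ⟨x, b, c', rfl⟩
    · simp at hk
    · have e1 : z1 ++ (x.map Sum.inl ++ Sum.inr b :: c') ++ z2 =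
          z1 ++ x.map Sum.inl ++ (Sum.inr b :: c' ++ z2) := by simp
      have e2 : z1 ++ (x.map Sum.inl ++ Sum.inr b :: c') ++ z2 =
          (z1 ++ x.map Sum.inl ++ [Sum.inr b]) ++ c' ++ z2 := by simp
      have h1 := hN z1 x _ (e1 ▸ hz) (e1 ▸ hb)
      have h2 := ih _ c' z2 (by simpa using hk) (e2 ▸ hz) (e2 ▸ hb)
      simp only [p1_append, p1_map_inl, p1_inr, List.length_append]
      nlinarith

/-- Transition type of a word read on the first tape. -/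
def ty (K : Set (List (A ⊕ A))) (x : List A) : Set (Set (List (A ⊕ A)) × Set (List (A ⊕ A))) :=
  {PQ | PQ.1 ∈ Set.range (lq K) ∧ ∃ c, p1 c = x ∧ lq PQ.1 c = PQ.2}

theorem ty_subset (K : Set (List (A ⊕ A))) (x : List A) :
    ty K x ⊆ Set.range (lq K) ×ˢ Set.range (lq K) := by
  rintro ⟨P, Q⟩ ⟨⟨z, hz⟩, c, -, hc⟩
  exact ⟨⟨z, hz⟩, ⟨z ++ c, by rw [lq_append, hz]; exact hc⟩⟩

theorem finite_range_ty {K : Set (List (A ⊕ A))} (hK : Reg K) : (Set.range (ty K)).Finite :=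
  (hK.prod hK).finite_subsets.subset (by rintro _ ⟨x, rfl⟩; exact ty_subset K x)

/-- Right type of a word read on the first tape. -/
def rty (K : Set (List (A ⊕ A))) (s : List A) : Set (Set (List (A ⊕ A))) :=
  {P | P ∈ Set.range (lq K) ∧ ∃ c ∈ P, p1 c = s}

theorem finite_range_rty {K : Set (List (A ⊕ A))} (hK : Reg K) : (Set.range (rty K)).Finite :=
  hK.finite_subsets.subset (by rintro _ ⟨x, rfl⟩ P hP; exact hP.1)

theorem rty_append {K : Set (List (A ⊕ A))} (x : List A) {s s' : List A}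
    (h : rty K s = rty K s') : rty K (x ++ s) = rty K (x ++ s') := by
  have key : ∀ {s s' : List A}, rty K s = rty K s' → rty K (x ++ s) ⊆ rty K (x ++ s') := by
    rintro s s' h _ ⟨⟨z, rfl⟩, c, hc, hc'⟩
    obtain ⟨c1, c2, rfl, rfl, rfl⟩ := p1_split hc'
    have : lq K (z ++ c1) ∈ rty K (p1 c2) := ⟨⟨_, rfl⟩, c2, by simpa using hc, rfl⟩
    rw [h] at this
    obtain ⟨-, c3, h3, rfl⟩ := this
    exact ⟨⟨z, rfl⟩, c1 ++ c3, by simpa using h3, by simp⟩
  exact (key h).antisymm (key h.symm)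

theorem short_ty [Finite A] {K : Set (List (A ⊕ A))} (hK : Reg K) (l : ℕ) : ∃ b : ℕ,
    ∀ x : List A, x.length ≤ l → ∀ PQ ∈ ty K x,
      ∃ c, p1 c = x ∧ lq PQ.1 c = PQ.2 ∧ (p2 c).length ≤ b := by
  have := exists_uniform (List.finite_length_le A l)
    (fun x b => ∀ PQ ∈ ty K x, ∃ c, p1 c = x ∧ lq PQ.1 c = PQ.2 ∧ (p2 c).length ≤ b)
    (fun x n m hnm h PQ hPQ => by
      obtain ⟨c, h1, h2, h3⟩ := h PQ hPQ
      exact ⟨c, h1, h2, h3.trans hnm⟩)
    (fun x _ => exists_uniform ((hK.prod hK).subset (ty_subset K x))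
      (fun PQ b => ∃ c, p1 c = x ∧ lq PQ.1 c = PQ.2 ∧ (p2 c).length ≤ b)
      (fun PQ n m hnm h => by
        obtain ⟨c, h1, h2, h3⟩ := h
        exact ⟨c, h1, h2, h3.trans hnm⟩)
      (fun PQ hPQ => by
        obtain ⟨-, c, h1, h2⟩ := hPQ
        exact ⟨_, c, h1, h2, le_rfl⟩))
  exact this

theorem short_rty {K : Set (List (A ⊕ A))} (hK : Reg K) (s : List A) : ∃ b : ℕ,
    ∀ P ∈ rty K s, ∃ c ∈ P, p1 c = s ∧ (p2 c).length ≤ b :=
  exists_uniform (hK.subset fun P (hP : P ∈ rty K s) => hP.1)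
    (fun P b => ∃ c ∈ P, p1 c = s ∧ (p2 c).length ≤ b)
    (fun P n m hnm h => by
      obtain ⟨c, h1, h2, h3⟩ := h
      exact ⟨c, h1, h2, h3.trans hnm⟩)
    (fun P hP => by
      obtain ⟨-, c, h1, h2⟩ := hP
      exact ⟨_, c, h1, h2, le_rfl⟩)

/-- Powers of a word. -/
def rep {γ : Type*} (x : List γ) : ℕ → List γ
  | 0 => []
  | p + 1 => x ++ rep x p

theorem rep_conj {γ : Type*} (x y : List γ) (p : ℕ) :
    rep (x ++ y) (p + 1) = x ++ rep (y ++ x) p ++ y := by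
  induction p with
  | zero => simp [rep]
  | succ p ih => rw [rep, ih]; simp [rep]

theorem rep_succ' {γ : Type*} (x : List γ) (p : ℕ) : rep x (p + 1) = rep x p ++ x := by
  simpa using rep_conj [] x p

theorem p1_rep (c : List (A ⊕ A)) (p : ℕ) : p1 (rep c p) = rep (p1 c) p := by
  induction p <;> simp_all [rep]

theorem p2_rep (c : List (A ⊕ A)) (p : ℕ) : p2 (rep c p) = rep (p2 c) p := by
  induction p <;> simp_all [rep]

theorem lq_rep {γ : Type*} {L : Set (List γ)} {z c : List γ} (h : lq L (z ++ c) = lq L z)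
    (p : ℕ) : lq L (z ++ rep c p) = lq L z := by
  induction p with
  | zero => simp [rep]
  | succ p ih => rw [rep, ← List.append_assoc, lq_congr h, ih]

theorem replace {K : Set (List (A ⊕ A))} {N b : ℕ}
    (hN : ∀ (z1 c z2 : List (A ⊕ A)), z1 ++ c ++ z2 ∈ K → p1 (z1 ++ c ++ z2) ∉ Bad K →
      (p1 c).length ≤ N * ((p2 c).length + 1))
    {X X' Z : List A} (hty : ty K X = ty K X')
    (hb : ∀ PQ ∈ ty K X, ∃ c, p1 c = X ∧ lq PQ.1 c = PQ.2 ∧ (p2 c).length ≤ b)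
    (hlong : N * (b + 1) < X'.length) (p : ℕ) :
    ∀ z1 c z2 : List (A ⊕ A), z1 ++ c ++ z2 ∈ K → p1 (z1 ++ c ++ z2) ∉ Bad K →
      p1 c = rep (Z ++ X') p → ∃ c', p1 c' = rep (Z ++ X) p ∧ lq K (z1 ++ c') = lq K (z1 ++ c) ∧
        (p2 c').length + p ≤ (p2 c).length := by
  induction p with
  | zero => intro z1 c z2 _ _ hc; exact ⟨c, hc, rfl, le_rfl⟩
  | succ p ih =>
    intro z1 c z2 hz hbad hc
    obtain ⟨c0, c3, rfl, h0, h3⟩ := p1_split hc
    obtain ⟨c1, c2, rfl, h1, h2⟩ := p1_split h0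
    have e1 : z1 ++ (c1 ++ c2 ++ c3) ++ z2 = (z1 ++ c1 ++ c2) ++ c3 ++ z2 := by simp
    have e2 : z1 ++ (c1 ++ c2 ++ c3) ++ z2 = (z1 ++ c1) ++ c2 ++ (c3 ++ z2) := by simp
    obtain ⟨c3', h4, h5, h6⟩ := ih _ c3 z2 (e1 ▸ hz) (e1 ▸ hbad) h3
    have h7 := hN _ c2 _ (e2 ▸ hz) (e2 ▸ hbad)
    have h8 : b + 1 ≤ (p2 c2).length := by
      by_contra hlt
      have : N * ((p2 c2).length + 1) ≤ N * (b + 1) := Nat.mul_le_mul_left _ (by omega)
      rw [h2] at h7
      omega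
    obtain ⟨c2', h9, h10, h11⟩ := hb (lq K (z1 ++ c1), lq K (z1 ++ c1 ++ c2))
      (hty ▸ ⟨⟨_, rfl⟩, c2, h2, (lq_append _ _ _).symm⟩)
    refine ⟨c1 ++ c2' ++ c3', by simp [rep, h1, h9, h4], ?_, ?_⟩
    · have h12 : lq K (z1 ++ c1 ++ c2') = lq K (z1 ++ c1 ++ c2) := by
        rw [lq_append _ (z1 ++ c1) c2']; exact h10
      have := lq_congr h12 c3'
      rw [h5] at this
      simpa using this
    · simp only [p2_append, List.length_append]
      omega

theorem no_pump {K : Set (List (A ⊕ A))} (hK : Reg K)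
    (htrans : ∀ u v w, Rel K u v → Rel K v w → Rel K u w)
    {N b : ℕ}
    (hN : ∀ (z1 c z2 : List (A ⊕ A)), z1 ++ c ++ z2 ∈ K → p1 (z1 ++ c ++ z2) ∉ Bad K →
      (p1 c).length ≤ N * ((p2 c).length + 1))
    {r X X' Z t s s' : List A} (hty : ty K X = ty K X')
    (hb : ∀ PQ ∈ ty K X, ∃ c, p1 c = X ∧ lq PQ.1 c = PQ.2 ∧ (p2 c).length ≤ b)
    (hlong : N * (b + 1) < X'.length) (hs : rty K s = rty K s')
    (hrel : ∀ p, Rel K (r ++ X ++ rep (Z ++ X') p ++ t ++ s)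
      (r ++ rep (X ++ Z) p ++ X' ++ t ++ s'))
    (hgood : ∀ p, r ++ X ++ rep (Z ++ X') p ++ t ++ s ∉ Bad K) : False := by
  classical
  obtain ⟨b2, hb2⟩ := short_rty hK s'
  have hV := hrel (b2 + 1 + 1)
  have hG := hgood (b2 + 1 + 1)
  rw [rep_succ', rep_conj X Z] at hV
  rw [rep_succ'] at hG
  set V := r ++ X ++ (rep (Z ++ X') (b2 + 1) ++ (Z ++ X')) ++ t ++ s with hVdef
  have hex : ∃ n, ∃ v, Rel K V v ∧ v.length = n := ⟨_, _, hV, rfl⟩
  obtain ⟨v, ⟨z, hz, h1, rfl⟩, hlen⟩ := Nat.find_spec hex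
  have e : V = (r ++ X) ++ (rep (Z ++ X') (b2 + 1) ++ ((Z ++ X' ++ t) ++ s)) := by simp [hVdef]
  rw [e] at h1
  obtain ⟨z0, z', rfl, h2, h3⟩ := p1_split h1
  obtain ⟨c, z'', rfl, h4, h5⟩ := p1_split h3
  obtain ⟨z3, cs, rfl, h6, h7⟩ := p1_split h5
  obtain ⟨c', h8, h9, h10⟩ := replace hN hty hb hlong (b2 + 1) z0 c (z3 ++ cs)
    (by simpa using hz) (by rw [List.append_assoc, h1, ← e]; exact hG) h4
  obtain ⟨cs', h11, h12, h13⟩ := hb2 (lq K (z0 ++ c ++ z3))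
    (hs ▸ ⟨⟨_, rfl⟩, cs, by simpa using hz, h7⟩)
  have h14 : z0 ++ c' ++ z3 ++ cs' ∈ K := mem_of_lq (lq_congr h9 z3).symm h11
  have h15 : Rel K V (p2 (z0 ++ c' ++ z3 ++ cs')) := by
    refine htrans _ _ _ hV ⟨_, h14, ?_, rfl⟩
    simp [h2, h8, h6, h12]
  have h16 := Nat.find_min' hex ⟨_, h15, rfl⟩
  rw [← hlen] at h16
  simp only [p2_append, List.length_append] at h16
  omega

end Pool.Agent.Lib.MP_7f7674_al
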