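import Mathlib
import Pool.Agent.Lib.MP_7f7674_al.Pump

/-!
Sequential machines with output; the equalizer of two of them is recognized by a deterministic
2-tape automaton; decoding of block codes.
-/

set_option autoImplicit false

namespace Pool.Agent.Lib.MP_7f7674_al

variable {T B : Type*}

theorem detRec_of_finite {σ : Type*} {X : Set (List T × List T)} (tape : σ → Bool)
    (next : σ → T → Option σ) (start : σ) (final : Set σ) (S : Set σ) (hS : S.Finite)
    (h0 : start ∈ S) (hcl : ∀ q ∈ S, ∀ a q', next q a = some q' → q' ∈ S)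
    (h : ∀ x y, (x, y) ∈ X ↔ ∃ r ∈ final, Run tape next start x y r) : DetRec X := by
  classical
  have : Finite S := hS
  obtain ⟨n, ⟨e⟩⟩ := Finite.exists_equiv_fin S
  let nx : Fin n → T → Option (Fin n) := fun i a =>
    (next (e.symm i) a).bind fun q' => if hq : q' ∈ S then some (e ⟨q', hq⟩) else none
  have h1 : ∀ q x y r, Run tape next q x y r → ∀ hq : q ∈ S, ∃ hr : r ∈ S,
      Run (fun i => tape (e.symm i)) nx (e ⟨q, hq⟩) x y (e ⟨r, hr⟩) := by
    intro q x y r hr
    induction hr with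
    | nil q => exact fun hq => ⟨hq, .nil _⟩
    | fst h2 h3 _ ih =>
      intro hq
      obtain ⟨hr, ih⟩ := ih (hcl _ hq _ _ h3)
      exact ⟨hr, .fst (by simpa using h2) (by simp [nx, h3, hcl _ hq _ _ h3]) ih⟩
    | snd h2 h3 _ ih =>
      intro hq
      obtain ⟨hr, ih⟩ := ih (hcl _ hq _ _ h3)
      exact ⟨hr, .snd (by simpa using h2) (by simp [nx, h3, hcl _ hq _ _ h3]) ih⟩
  have h3 : ∀ i a j, nx i a = some j → next (e.symm i) a = some (e.symm j : σ) := by
    intro i a j hj
    obtain ⟨q', h4, h5⟩ := Option.bind_eq_some_iff.1 hj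
    split_ifs at h5 with hq
    rw [h4, ← Option.some.inj h5]
    simp
  have h2 : ∀ i x y j, Run (fun i => tape (e.symm i)) nx i x y j →
      Run tape next (e.symm i) x y (e.symm j) := by
    intro i x y j hr
    induction hr with
    | nil q => exact .nil _
    | fst h4 h5 _ ih => exact .fst h4 (h3 _ _ _ h5) ih
    | snd h4 h5 _ ih => exact .snd h4 (h3 _ _ _ h5) ih
  refine ⟨n, fun i => tape (e.symm i), nx, e ⟨start, h0⟩, {i | (e.symm i : σ) ∈ final},
    fun x y => (h x y).trans ⟨?_, ?_⟩⟩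
  · rintro ⟨r, hr, h4⟩
    obtain ⟨hr', h5⟩ := h1 _ _ _ _ h4 h0
    exact ⟨_, by simpa using hr, h5⟩
  · rintro ⟨j, hj, h4⟩
    exact ⟨_, hj, by simpa using h2 _ _ _ _ h4⟩

/-- Shift of an emission rule by a word already read. -/
def sh (e : List T → T → List B) (x : List T) : List T → T → List B := fun y => e (x ++ y)

theorem sh_append (e : List T → T → List B) (x y : List T) : sh e (x ++ y) = sh (sh e x) y := by
  funext z; simp [sh]

/-- Output of an emission rule. -/
def out : (List T → T → List B) → List T → List B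
  | _, [] => []
  | e, a :: x => e [] a ++ out (sh e [a]) x

/-- Finite-state emission rules. -/
def FinState (e : List T → T → List B) : Prop := (Set.range (sh e)).Finite

/-- Output of a machine with states. -/
def mout {σ : Type*} (step : σ → T → σ) (emit : σ → T → List B) : σ → List T → List B
  | _, [] => []
  | q, a :: x => emit q a ++ mout step emit (step q a) x

theorem seq_of_machine {σ : Type*} (step : σ → T → σ) (emit : σ → T → List B) (q0 : σ)
    (S : Set σ) (hS : S.Finite) (h0 : q0 ∈ S) (hcl : ∀ q ∈ S, ∀ a, step q a ∈ S) :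
    ∃ e, FinState e ∧ ∀ x, out e x = mout step emit q0 x := by
  let E : σ → List T → T → List B := fun q x => emit (x.foldl step q)
  have h1 : ∀ q x, sh (E q) x = E (x.foldl step q) := by
    intro q x; funext y; simp [sh, E]
  have h2 : ∀ (x : List T), ∀ q ∈ S, x.foldl step q ∈ S := by
    intro x
    induction x with
    | nil => exact fun q hq => hq
    | cons a x ih => exact fun q hq => ih _ (hcl q hq a)
  refine ⟨E q0, (hS.image E).subset ?_, fun x => ?_⟩
  · rintro _ ⟨x, rfl⟩
    exact ⟨_, h2 x q0 h0, (h1 q0 x).symm⟩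
  · clear h0
    induction x generalizing q0 with
    | nil => rfl
    | cons a x ih => rw [out, mout, h1, ih]; rfl

theorem exists_strip (s t : List B) : ∃ d : List B × List B,
    (∃ c, s = c ++ d.1 ∧ t = c ++ d.2) ∧ ((s <+: t ∨ t <+: s) → d.1 = [] ∨ d.2 = []) := by
  by_cases h1 : s <+: t
  · obtain ⟨w, rfl⟩ := h1
    exact ⟨([], w), ⟨s, by simp, rfl⟩, fun _ => Or.inl rfl⟩
  by_cases h2 : t <+: s
  · obtain ⟨w, rfl⟩ := h2
    exact ⟨(w, []), ⟨t, rfl, by simp⟩, fun _ => Or.inr rfl⟩
  exact ⟨(s, t), ⟨[], rfl, rfl⟩, fun h => (h.elim h1 h2).elim⟩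

/-- No word of the language properly extends another. -/
def PFree (P : Set (List T)) : Prop := ∀ x y, x ∈ P → x ++ y ∈ P → y = []

theorem PFree.lq {P : Set (List T)} (h : PFree P) (w : List T) : PFree (lq P w) :=
  fun x y hx hy => h (w ++ x) y hx (by simpa using hy)

theorem detRec_equalizer [Finite T] [Finite B] {D1 D2 : Set (List T)} (hD1 : Reg D1)
    (hD2 : Reg D2) (hP1 : PFree D1) (hP2 : PFree D2) {e1 e2 : List T → T → List B}
    (he1 : FinState e1) (he2 : FinState e2) :
    DetRec {p : List T × List T | p.1 ∈ D1 ∧ p.2 ∈ D2 ∧ out e1 p.1 = out e2 p.2} := by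
  classical
  obtain ⟨c, hc⟩ := exists_uniform ((he1.union he2).prod (Set.finite_univ (α := T)))
    (fun p n => (p.1 [] p.2).length ≤ n) (fun _ _ _ h h' => h'.trans h) (fun _ _ => ⟨_, le_rfl⟩)
  choose strip hs1 hs2 using exists_strip (B := B)
  let σ := (Set (List T) × Set (List T)) × ((List T → T → List B) × (List T → T → List B)) ×
    (List B × List B)
  let tape : σ → Bool := fun q => decide ([] ∉ q.1.1 ∧ ([] ∈ q.1.2 ∨ q.2.2.1 = []))
  let nx : σ → T → σ := fun q a =>
    if tape q = true then ((lq q.1.1 [a], q.1.2), (sh q.2.1.1 [a], q.2.1.2),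
      strip (q.2.2.1 ++ q.2.1.1 [] a) q.2.2.2)
    else ((q.1.1, lq q.1.2 [a]), (q.2.1.1, sh q.2.1.2 [a]),
      strip q.2.2.1 (q.2.2.2 ++ q.2.1.2 [] a))
  let next : σ → T → Option σ := fun q a =>
    if (nx q a).2.2.1.length ≤ c ∧ (nx q a).2.2.2.length ≤ c then some (nx q a) else none
  let S : Set σ := (Set.range (lq D1) ×ˢ Set.range (lq D2)) ×ˢ
    (Set.range (sh e1) ×ˢ Set.range (sh e2)) ×ˢ
      ({l : List B | l.length ≤ c} ×ˢ {l : List B | l.length ≤ c})
  have hnext : ∀ q a q', next q a = some q' →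
      q' = nx q a ∧ q'.2.2.1.length ≤ c ∧ q'.2.2.2.length ≤ c := by
    intro q a q' h
    simp only [next] at h
    split_ifs at h with h1
    obtain rfl := Option.some.inj h
    exact ⟨rfl, h1⟩
  have hcl : ∀ q ∈ S, ∀ a q', next q a = some q' → q' ∈ S := by
    rintro ⟨⟨P1, P2⟩, ⟨f1, f2⟩, d⟩ ⟨⟨⟨x1, h1⟩, ⟨x2, h2⟩⟩, ⟨⟨y1, h3⟩, ⟨y2, h4⟩⟩, -⟩ a q' h
    obtain ⟨h5, h6⟩ := hnext _ _ _ h
    refine ⟨?_, ?_, h6⟩
    · rw [h5]
      simp only [nx]
      split_ifs
      · exact ⟨⟨x1 ++ [a], by rw [lq_append, h1]⟩, ⟨x2, h2⟩⟩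
      · exact ⟨⟨x1, h1⟩, ⟨x2 ++ [a], by rw [lq_append, h2]⟩⟩
    · rw [h5]
      simp only [nx]
      split_ifs
      · exact ⟨⟨y1 ++ [a], by rw [sh_append, h3]⟩, ⟨y2, h4⟩⟩
      · exact ⟨⟨y1, h3⟩, ⟨y2 ++ [a], by rw [sh_append, h4]⟩⟩
  have h0 : (((D1, D2), (e1, e2), ([], [])) : σ) ∈ S :=
    ⟨⟨⟨[], rfl⟩, ⟨[], rfl⟩⟩, ⟨⟨[], rfl⟩, ⟨[], rfl⟩⟩, by simp, by simp⟩
  have sound : ∀ q x y r, Run tape next q x y r → r.1.1 = lq q.1.1 x ∧ r.1.2 = lq q.1.2 y ∧
      ∃ w, q.2.2.1 ++ out q.2.1.1 x = w ++ r.2.2.1 ∧ q.2.2.2 ++ out q.2.1.2 y = w ++ r.2.2.2 := by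
    intro q x y r h
    induction h with
    | nil q => exact ⟨rfl, rfl, [], by simp [out], by simp [out]⟩
    | @fst q q' r a x y h1 h2 _ ih =>
      obtain ⟨rfl, -⟩ := hnext _ _ _ h2
      simp only [nx, if_pos h1] at ih
      obtain ⟨h3, h4, w, h5, h6⟩ := ih
      obtain ⟨w', h7, h8⟩ := hs1 (q.2.2.1 ++ q.2.1.1 [] a) q.2.2.2
      refine ⟨h3.trans (lq_append _ [a] x).symm, h4, w' ++ w, ?_, ?_⟩
      · rw [out, ← List.append_assoc, h7, List.append_assoc, h5, List.append_assoc]
      · rw [List.append_assoc, ← h6, ← List.append_assoc, ← h8]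
    | @snd q q' r a x y h1 h2 _ ih =>
      obtain ⟨rfl, -⟩ := hnext _ _ _ h2
      simp only [nx, h1, Bool.false_eq_true, if_false] at ih
      obtain ⟨h3, h4, w, h5, h6⟩ := ih
      obtain ⟨w', h7, h8⟩ := hs1 q.2.2.1 (q.2.2.2 ++ q.2.1.2 [] a)
      refine ⟨h3, h4.trans (lq_append _ [a] y).symm, w' ++ w, ?_, ?_⟩
      · rw [List.append_assoc, ← h5, ← List.append_assoc, ← h7]
      · rw [out, ← List.append_assoc, h8, List.append_assoc, h6, List.append_assoc]
  have complete : ∀ (n : ℕ) (x y : List T) (q : σ), x.length + y.length = n → q ∈ S →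
      x ∈ q.1.1 → y ∈ q.1.2 → q.2.2.1 ++ out q.2.1.1 x = q.2.2.2 ++ out q.2.1.2 y →
      (q.2.2.1 = [] ∨ q.2.2.2 = []) →
      ∃ r, ([] ∈ r.1.1 ∧ [] ∈ r.1.2 ∧ r.2.2.1 = r.2.2.2) ∧ Run tape next q x y r := by
    intro n
    induction n with
    | zero =>
      intro x y q hn _ hx hy h _
      obtain rfl : x = [] := List.eq_nil_of_length_eq_zero (by omega)
      obtain rfl : y = [] := List.eq_nil_of_length_eq_zero (by omega)
      exact ⟨q, ⟨hx, hy, by simpa [out] using h⟩, .nil q⟩
    | succ n ih =>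
      intro x y q hn hq hx hy h hd
      have f1 : PFree q.1.1 := by obtain ⟨w, hw⟩ := hq.1.1; exact hw ▸ hP1.lq w
      have f2 : PFree q.1.2 := by obtain ⟨w, hw⟩ := hq.1.2; exact hw ▸ hP2.lq w
      have l1 : q.2.2.1.length ≤ c := hq.2.2.1
      have l2 : q.2.2.2.length ≤ c := hq.2.2.2
      by_cases ht : tape q = true
      · have ht' : [] ∉ q.1.1 ∧ ([] ∈ q.1.2 ∨ q.2.2.1 = []) := by simpa [tape] using ht
        rcases x with _ | ⟨a, x⟩
        · exact (ht'.1 hx).elim
        have hd1 : q.2.2.1 = [] := by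
          rcases ht'.2 with h1 | h1
          · obtain rfl : y = [] := f2 [] y h1 hy
            rcases hd with hd | hd
            · exact hd
            · rw [hd] at h
              exact (List.append_eq_nil_iff.1 h).1
          · exact h1
        have l3 := hc (q.2.1.1, a) ⟨Or.inl hq.2.1.1, trivial⟩
        obtain ⟨w, h7, h8⟩ := hs1 (q.2.2.1 ++ q.2.1.1 [] a) q.2.2.2
        rw [out, ← List.append_assoc] at h
        have h9 := hs2 (q.2.2.1 ++ q.2.1.1 [] a) q.2.2.2
          (List.prefix_or_prefix_of_prefix ⟨_, h⟩ (List.prefix_append _ _))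
        have hn' : next q a = some (nx q a) := by
          have l4 := congrArg List.length h7
          have l5 := congrArg List.length h8
          rw [List.length_append] at l5
          rw [List.length_append, List.length_append] at l4
          have l6 : q.2.2.1.length = 0 := by rw [hd1]; rfl
          simp only [next, nx, if_pos ht]
          rw [if_pos ⟨by simp only at l3; omega, by omega⟩]
        obtain ⟨r, h10, h11⟩ := ih x y (nx q a) (by simp at hn; omega) (hcl _ hq _ _ hn')
          (by simp only [nx, if_pos ht]; exact hx) (by simp only [nx, if_pos ht]; exact hy)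
          (by
            simp only [nx, if_pos ht]
            apply List.append_cancel_left (as := w)
            rw [← List.append_assoc, ← List.append_assoc, ← h7, ← h8, h])
          (by simp only [nx, if_pos ht]; exact h9)
        exact ⟨r, h10, .fst ht hn' h11⟩
      · have ht' : [] ∈ q.1.1 ∨ ([] ∉ q.1.2 ∧ q.2.2.1 ≠ []) := by
          simp only [tape, decide_eq_true_eq] at ht
          tauto
        have hy' : y ≠ [] := by
          rintro rfl
          rcases ht' with h1 | h1
          · obtain rfl : x = [] := f1 [] x h1 hx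
            simp at hn
          · exact h1.1 hy
        rcases y with _ | ⟨a, y⟩
        · exact (hy' rfl).elim
        have hd2 : q.2.2.2 = [] := by
          rcases hd with hd | hd
          · rcases ht' with h1 | h1
            · obtain rfl : x = [] := f1 [] x h1 hx
              rw [hd] at h
              exact (List.append_eq_nil_iff.1 h.symm).1
            · exact (h1.2 hd).elim
          · exact hd
        have l3 := hc (q.2.1.2, a) ⟨Or.inr hq.2.1.2, trivial⟩
        obtain ⟨w, h7, h8⟩ := hs1 q.2.2.1 (q.2.2.2 ++ q.2.1.2 [] a)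
        rw [show out q.2.1.2 (a :: y) = _ from rfl, out, ← List.append_assoc] at h
        have h9 := hs2 q.2.2.1 (q.2.2.2 ++ q.2.1.2 [] a)
          (List.prefix_or_prefix_of_prefix ⟨_, h⟩ (List.prefix_append _ _))
        have hn' : next q a = some (nx q a) := by
          have l4 := congrArg List.length h7
          have l5 := congrArg List.length h8
          rw [List.length_append] at l4
          rw [List.length_append, List.length_append] at l5
          have l6 : q.2.2.2.length = 0 := by rw [hd2]; rfl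
          simp only [next, nx, if_neg ht]
          rw [if_pos ⟨by omega, by simp only at l3; omega⟩]
        obtain ⟨r, h10, h11⟩ := ih x y (nx q a) (by simp at hn; omega) (hcl _ hq _ _ hn')
          (by simp only [nx, if_neg ht]; exact hx) (by simp only [nx, if_neg ht]; exact hy)
          (by
            simp only [nx, if_neg ht]
            apply List.append_cancel_left (as := w)
            rw [← List.append_assoc, ← List.append_assoc, ← h7, ← h8, h])
          (by simp only [nx, if_neg ht]; exact h9)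
        exact ⟨r, h10, .snd (by simpa using ht) hn' h11⟩
  refine detRec_of_finite tape next ((D1, D2), (e1, e2), ([], []))
    {r | [] ∈ r.1.1 ∧ [] ∈ r.1.2 ∧ r.2.2.1 = r.2.2.2} S
    ((hD1.prod hD2).prod ((he1.prod he2).prod
      ((List.finite_length_le B c).prod (List.finite_length_le B c)))) h0 hcl fun x y => ⟨?_, ?_⟩
  · rintro ⟨h1, h2, h3⟩
    exact complete _ x y _ rfl h0 h1 h2 h3 (Or.inl rfl)
  · rintro ⟨r, ⟨h1, h2, h3⟩, h4⟩
    obtain ⟨h5, h6, w, h7, h8⟩ := sound _ _ _ _ h4
    rw [h5] at h1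
    rw [h6] at h2
    refine ⟨by simpa using h1, by simpa using h2, ?_⟩
    rw [h3, ← h8] at h7
    exact h7

theorem seq_decode {Λ : Type*} {D : Set (List Λ)} (hD : Reg D) (Λ0 : Set Λ) (hΛ : Λ0.Finite)
    (code : Λ → List T) (h0 : ∀ z l z', z ++ l :: z' ∈ D → l ∈ Λ0 ∧ code l ≠ [])
    (hdec : ∀ z l z' l' z'', z ++ l :: z' ∈ D → z ++ l' :: z'' ∈ D → code l <+: code l' → l = l')
    {e : List Λ → Λ → List B} (he : FinState e) :
    ∃ e' : List T → T → List B, FinState e' ∧ ∀ z ∈ D, out e' (z.flatMap code) = out e z := by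
  classical
  let σ := Set (List Λ) × (List Λ → Λ → List B) × List T
  let step : σ → T → σ := fun q a =>
    if h : ∃ l, code l = q.2.2 ++ [a] ∧ ∃ z', l :: z' ∈ q.1 then
      (lq q.1 [h.choose], sh q.2.1 [h.choose], [])
    else if ∃ l ∈ Λ0, q.2.2 ++ [a] <+: code l then (q.1, q.2.1, q.2.2 ++ [a]) else (q.1, q.2.1, [])
  let emit : σ → T → List B := fun q a =>
    if h : ∃ l, code l = q.2.2 ++ [a] ∧ ∃ z', l :: z' ∈ q.1 then q.2.1 [] h.choose else []
  obtain ⟨e', h1, h2⟩ := seq_of_machine step emit (D, e, [])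
    (Set.range (lq D) ×ˢ Set.range (sh e) ×ˢ insert [] (⋃ l ∈ Λ0, {s | s <+: code l}))
    (hD.prod (he.prod ((hΛ.biUnion fun l _ => finite_prefixes _).insert _)))
    ⟨⟨[], rfl⟩, ⟨[], rfl⟩, Or.inl rfl⟩ (by
      rintro ⟨Q, f, buf⟩ ⟨⟨x, hx⟩, ⟨y, hy⟩, -⟩ a
      simp only [step]
      split_ifs with h3 h4
      · exact ⟨⟨x ++ [h3.choose], by rw [lq_append, hx]⟩, ⟨y ++ [h3.choose], by rw [sh_append, hy]⟩,
          Or.inl rfl⟩
      · obtain ⟨l, h5, h6⟩ := h4
        exact ⟨⟨x, hx⟩, ⟨y, hy⟩, Or.inr (Set.mem_biUnion h5 h6)⟩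
      · exact ⟨⟨x, hx⟩, ⟨y, hy⟩, Or.inl rfl⟩)
  refine ⟨e', h1, fun z hz => ?_⟩
  rw [h2]
  have inner : ∀ z l z', z ++ l :: z' ∈ D → ∀ (f : List Λ → Λ → List B) (rest w buf : List T),
      w ≠ [] → code l = buf ++ w → mout step emit (lq D z, f, buf) (w ++ rest) =
        f [] l ++ mout step emit (lq D (z ++ [l]), sh f [l], []) rest := by
    intro z l z' hz f rest w
    induction w with
    | nil => intro buf h; exact (h rfl).elim
    | cons a w ih =>
      intro buf _ hw
      rw [List.cons_append, mout]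
      by_cases hw' : w = []
      · subst hw'
        have h : ∃ l, code l = buf ++ [a] ∧ ∃ z', l :: z' ∈ lq D z := ⟨l, hw, z', hz⟩
        have h3 : h.choose = l := by
          obtain ⟨h4, z'', h5⟩ := h.choose_spec
          exact hdec z _ z'' l z' h5 hz (by rw [h4, hw])
        simp only [step, emit, dif_pos h, h3, List.nil_append, lq_append]
      · have h : ¬ ∃ l, code l = buf ++ [a] ∧ ∃ z', l :: z' ∈ lq D z := by
          rintro ⟨l', h4, z'', h5⟩
          obtain rfl := hdec z _ z'' l z' h5 hz ⟨w, by rw [h4, hw]; simp⟩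
          rw [h4] at hw
          exact hw' (by simpa using hw)
        have h' : ∃ l ∈ Λ0, buf ++ [a] <+: code l := ⟨l, (h0 _ _ _ hz).1, w, by rw [hw]; simp⟩
        simp only [step, emit, dif_neg h, if_pos h', List.nil_append]
        exact ih _ hw' (by rw [hw]; simp)
  have outer : ∀ z' z, z ++ z' ∈ D → ∀ f : List Λ → Λ → List B,
      mout step emit (lq D z, f, []) (z'.flatMap code) = out f z' := by
    intro z'
    induction z' with
    | nil => intro z _ f; rfl
    | cons l z' ih =>
      intro z hz f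
      rw [List.flatMap_cons, inner z l z' hz f _ (code l) [] (h0 _ _ _ hz).2 rfl, out,
        ih (z ++ [l]) (by simpa using hz)]
  exact outer z [] hz e

end Pool.Agent.Lib.MP_7f7674_al
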