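import Mathlib
import Pool.Agent.Lib.MP_7f7674_al.Seq

/-!
Words cut into blocks carrying a look-ahead, and the sequential machine that uses it.
-/

set_option autoImplicit false

namespace Pool.Agent.Lib.MP_7f7674_al

variable {A θ : Type*}

/-- The word is cut into blocks of length `H` and a shorter last block; every block carries the
type of the rest of the word. -/
inductive IsBlocks (H : ℕ) (τ : List A → θ) : List A → List (List A × θ × Bool) → Prop
  | last (W : List A) : W.length < H → IsBlocks H τ W [(W, τ [], true)]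
  | cons (W : List A) {s : List A} {z : List (List A × θ × Bool)} : W.length = H →
      IsBlocks H τ s z → IsBlocks H τ (W ++ s) ((W, τ s, false) :: z)

theorem exists_blocks {H : ℕ} (hH : 0 < H) (τ : List A → θ) (u : List A) :
    ∃ z, IsBlocks H τ u z := by
  induction hn : u.length using Nat.strong_induction_on generalizing u with
  | _ n ih =>
    by_cases h : u.length < H
    · exact ⟨_, .last u h⟩
    · obtain ⟨z, hz⟩ := ih _ (by simp; omega) (u.drop H) rfl
      have := IsBlocks.cons (u.take H) (by simp; omega) hz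
      rw [List.take_append_drop] at this
      exact ⟨_, this⟩

theorem IsBlocks.ne_nil {H : ℕ} {τ : List A → θ} {u : List A} {z : List (List A × θ × Bool)}
    (h : IsBlocks H τ u z) : z ≠ [] := by
  cases h <;> simp

theorem IsBlocks.split {H : ℕ} {τ : List A → θ}
    (hτ : ∀ x s s', τ s = τ s' → τ (x ++ s) = τ (x ++ s')) {y : List (List A × θ × Bool)}
    (hy : y ≠ []) (x : List (List A × θ × Bool)) : ∀ u, IsBlocks H τ u (x ++ y) →
      ∃ s, u = x.flatMap (·.1) ++ s ∧ IsBlocks H τ s y ∧ ∀ s' y', τ s' = τ s →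
        IsBlocks H τ s' y' → IsBlocks H τ (x.flatMap (·.1) ++ s') (x ++ y') := by
  induction x with
  | nil => intro u h; exact ⟨u, rfl, h, fun _ _ _ h => h⟩
  | cons l x ih =>
    intro u h
    generalize hz : (l :: x) ++ y = z at h
    cases h with
    | last _ _ =>
      simp only [List.cons_append, List.cons.injEq, List.append_eq_nil_iff] at hz
      exact (hy hz.2.2).elim
    | @cons W s z h1 h2 =>
      simp only [List.cons_append, List.cons.injEq] at hz
      obtain ⟨rfl, rfl⟩ := hz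
      obtain ⟨s0, rfl, h3, h4⟩ := ih s h2
      refine ⟨s0, by simp, h3, fun s' y' h5 h6 => ?_⟩
      have := IsBlocks.cons W h1 (h4 s' y' h5 h6)
      rw [hτ _ _ _ h5] at this
      simpa using this

theorem IsBlocks.inv {H : ℕ} {τ : List A → θ} {s : List A} {l : List A × θ × Bool}
    {z : List (List A × θ × Bool)} (h : IsBlocks H τ s (l :: z)) :
    ∃ s0, s = l.1 ++ s0 ∧ l.2.1 = τ s0 ∧
      ((l.2.2 = true ∧ s0 = [] ∧ l.1.length < H) ∨ (l.2.2 = false ∧ l.1.length = H)) := by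
  generalize hz : l :: z = z' at h
  cases h with
  | last _ h1 =>
    obtain ⟨rfl, -⟩ := List.cons.inj hz
    exact ⟨[], by simp, rfl, Or.inl ⟨rfl, rfl, h1⟩⟩
  | @cons W s z h1 h2 =>
    obtain ⟨rfl, -⟩ := List.cons.inj hz
    exact ⟨s, rfl, rfl, Or.inr ⟨rfl, h1⟩⟩

/-- Block decompositions of the words of a language. -/
def blocksOf (H : ℕ) (τ : List A → θ) (C : Set (List A)) : Set (List (List A × θ × Bool)) :=
  {z | ∃ u ∈ C, IsBlocks H τ u z}

theorem blocksOf_inv {H : ℕ} {τ : List A → θ}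
    (hτ : ∀ x s s', τ s = τ s' → τ (x ++ s) = τ (x ++ s')) {C : Set (List A)}
    {z z' : List (List A × θ × Bool)} {l : List A × θ × Bool} (h : z ++ l :: z' ∈ blocksOf H τ C) :
    ∃ s0, z.flatMap (·.1) ++ l.1 ++ s0 ∈ C ∧ l.2.1 = τ s0 ∧
      ((l.2.2 = true ∧ s0 = [] ∧ l.1.length < H) ∨ (l.2.2 = false ∧ l.1.length = H)) := by
  obtain ⟨u, hu, h⟩ := h
  obtain ⟨s, rfl, h1, -⟩ := IsBlocks.split hτ (by simp) z u h
  obtain ⟨s0, rfl, h2⟩ := h1.inv
  exact ⟨s0, by simpa using hu, h2⟩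

theorem reg_blocksOf {H : ℕ} {τ : List A → θ} (hfin : (Set.range τ).Finite)
    (hτ : ∀ x s s', τ s = τ s' → τ (x ++ s) = τ (x ++ s')) {C : Set (List A)} (hC : Reg C) :
    Reg (blocksOf H τ C) := by
  refine reg_of_cover (insert {[]} ((fun p : Set (List A) × θ =>
    {z | ∃ s ∈ p.1, τ s = p.2 ∧ IsBlocks H τ s z}) '' (Set.range (lq C) ×ˢ Set.range τ)))
    (((hC.prod hfin).image _).insert _) ?_
  rintro x y ⟨u, hu, h⟩
  by_cases hy : y = []
  · subst hy
    refine ⟨_, Or.inl rfl, rfl, ?_⟩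
    rintro _ rfl
    exact ⟨u, hu, h⟩
  · obtain ⟨s, rfl, h1, h2⟩ := IsBlocks.split hτ hy x u h
    refine ⟨_, Or.inr ⟨(lq C (x.flatMap fun l : List A × θ × Bool => l.1), τ s), ⟨⟨_, rfl⟩, ⟨_, rfl⟩⟩, rfl⟩,
      ⟨s, hu, rfl, h1⟩, ?_⟩
    rintro y' ⟨s', h3, h4, h5⟩
    exact ⟨_, h3, h2 s' y' h4 h5⟩

theorem seq_lookahead {H : ℕ} {τ : List A → θ} {K : Set (List (A ⊕ A))} (hK : Reg K)
    (hτ : ∀ s s', τ s = τ s' → rty K s = rty K s') :
    ∃ e : List (List A × θ × Bool) → List A × θ × Bool → List A, FinState e ∧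
      ∀ u z, IsBlocks H τ u z → (∃ v, Rel K u v) → Rel K u (out e z) := by
  classical
  let ok : Set (List (A ⊕ A)) → List A × θ × Bool → List (A ⊕ A) → Prop := fun P l c =>
    p1 c = l.1 ∧ (l.2.2 = true → c ∈ P) ∧
      (l.2.2 = false → ∃ s, τ s = l.2.1 ∧ ∃ c' ∈ lq P c, p1 c' = s)
  let ch : Set (List (A ⊕ A)) → List A × θ × Bool → List (A ⊕ A) := fun P l =>
    if h : ∃ c, ok P l c then h.choose else []
  have hch : ∀ P l, (∃ c, ok P l c) → ok P l (ch P l) := by
    intro P l h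
    simp only [ch, dif_pos h]
    exact h.choose_spec
  obtain ⟨e, h1, h2⟩ := seq_of_machine (fun P l => lq P (ch P l)) (fun P l => p2 (ch P l)) K
    (Set.range (lq K)) hK ⟨[], rfl⟩ (by
      rintro _ ⟨x, rfl⟩ l
      exact ⟨_, lq_append _ _ _⟩)
  refine ⟨e, h1, ?_⟩
  have key : ∀ u z, IsBlocks H τ u z → ∀ x, (∃ c ∈ lq K x, p1 c = u) →
      ∃ c ∈ lq K x, p1 c = u ∧
        p2 c = mout (fun P l => lq P (ch P l)) (fun P l => p2 (ch P l)) (lq K x) z := by
    intro u z h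
    induction h with
    | last W _ =>
      rintro x ⟨c, h3, h4⟩
      obtain ⟨h5, h6, -⟩ := hch (lq K x) (W, τ [], true) ⟨c, h4, fun _ => h3, by simp⟩
      exact ⟨_, h6 rfl, h5, by simp [mout]⟩
    | @cons W s z _ _ ih =>
      rintro x ⟨c, h3, h4⟩
      obtain ⟨c1, c2, rfl, h5, h6⟩ := p1_split h4
      obtain ⟨h7, -, h8⟩ := hch (lq K x) (W, τ s, false)
        ⟨c1, h5, by simp, fun _ => ⟨s, rfl, c2, h3, h6⟩⟩
      obtain ⟨s', h9, h10⟩ := h8 rfl
      rw [← lq_append] at h10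
      have h11 : lq K (x ++ ch (lq K x) (W, τ s, false)) ∈ rty K s' := ⟨⟨_, rfl⟩, h10⟩
      rw [hτ _ _ h9] at h11
      obtain ⟨c3, h12, h13, h14⟩ := ih _ h11.2
      refine ⟨ch (lq K x) (W, τ s, false) ++ c3, by simpa using h12, by simp [h7, h13], ?_⟩
      rw [p2_append, mout, h14, lq_append]
  rintro u z h ⟨v, c, hc, h3, -⟩
  obtain ⟨c', h4, h5, h6⟩ := key u z h [] ⟨c, hc, h3⟩
  exact ⟨c', h4, h5, by rw [h2, h6]; rfl⟩

end Pool.Agent.Lib.MP_7f7674_al
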