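import Mathlib
import Pool.Agent.Lib.MP_7f7674_al.Blocks

/-!
Coding bits in the positions where a word is cut into generators.
-/

set_option autoImplicit false

namespace Pool.Agent.Lib.MP_7f7674_al

variable {A S : Type*} [Semigroup S]

/-- Evaluation of lists. -/
def evl (g : A → S) (w : List A) : WithOne S := ev g (FreeMonoid.ofList w)

@[simp] theorem evl_nil (g : A → S) : evl g [] = 1 := map_one (ev g)

theorem evl_append (g : A → S) (x y : List A) : evl g (x ++ y) = evl g x * evl g y := by
  simp [evl, FreeMonoid.ofList_append]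

theorem evl_single (g : A → S) (a : A) : evl g [a] = g a := by
  simp [evl, ev]

theorem evl_cons (g : A → S) (a : A) (x : List A) : evl g (a :: x) = g a * evl g x := by
  rw [← evl_single, ← evl_append]; rfl

theorem evl_coe (g : A → S) {w : List A} (hw : w ≠ []) : ∃ s : S, evl g w = s := by
  induction w with
  | nil => exact (hw rfl).elim
  | cons a w ih =>
    by_cases h : w = []
    · subst h; exact ⟨_, evl_single g a⟩
    · obtain ⟨s, hs⟩ := ih h
      exact ⟨g a * s, by rw [evl_cons, hs, WithOne.coe_mul]⟩

theorem exists_cut [Finite A] (g : A → S) {C : Set (List A)} (hC : Reg C)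
    (hinj : ∀ u ∈ C, ∀ v ∈ C, evl g u = evl g v → u = v) : ∃ H, 2 ≤ H ∧
      ∀ x V s, x ++ V ++ s ∈ C → V.length = H →
        ∃ l, 1 ≤ l ∧ l < H ∧ ∀ a, evl g (V.take l) ≠ g a := by
  classical
  have hfin := hC.prod (Set.finite_range fun a => (g a : WithOne S))
  refine ⟨hfin.toFinset.card + 2, by omega, fun x V s h hV => ?_⟩
  by_contra hcon
  push Not at hcon
  obtain ⟨i, hi, j, hj, hij, h1⟩ := Finset.exists_ne_map_eq_of_card_lt_of_maps_to
    (s := Finset.range (hfin.toFinset.card + 1)) (t := hfin.toFinset) (by simp)
    (f := fun i => (lq C (x ++ V.take (i + 1)), evl g (V.take (i + 1)))) (fun i hi => by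
      obtain ⟨a, ha⟩ := hcon (i + 1) (by omega) (by simp at hi; omega)
      simp only [Set.Finite.coe_toFinset]
      exact ⟨⟨_, rfl⟩, a, ha.symm⟩)
  simp only [Finset.mem_range] at hi hj
  wlog hlt : i < j generalizing i j
  · exact this j i hij.symm h1.symm hj hi (by omega)
  simp only [Prod.mk.injEq] at h1
  have h2 : x ++ V.take (j + 1) ++ (V.drop (j + 1) ++ s) = x ++ V ++ s := by
    rw [List.append_assoc, ← List.append_assoc (V.take _), List.take_append_drop,
      List.append_assoc]
  have h3 := mem_of_lq h1.1.symm (h2 ▸ h)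
  have h4 := hinj _ h3 _ (h2 ▸ h) (by simp only [evl_append, h1.2])
  have h5 := congrArg List.length h4
  simp at h5
  omega

open Classical in
/-- The generator with the value of a short word. -/
noncomputable def letter (g : A → S) (B : Finset S) (w : List A) : Option B :=
  if h : ∃ b : B, ((b : S) : WithOne S) = evl g w then some h.choose else none

open Classical in
/-- The cut position coding a bit. -/
noncomputable def cut (g : A → S) (H : ℕ) (V : List A) (β : Bool) : ℕ :=
  if h : β = true ∧ ∃ l, 1 ≤ l ∧ l < H ∧ ∀ a, evl g (V.take l) ≠ g a then h.2.choose else 1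

/-- Two generators for each piece of length `H`, coding one bit. -/
noncomputable def codeBits (g : A → S) (B : Finset S) (H : ℕ) :
    List Bool → List A → List (Option B)
  | [], _ => []
  | β :: βs, W => letter g B ((W.take H).take (cut g H (W.take H) β)) ::
      letter g B ((W.take H).drop (cut g H (W.take H) β)) :: codeBits g B H βs (W.drop H)

open Classical in
/-- One generator for each piece of length at most `H`. -/
noncomputable def codeLast (g : A → S) (B : Finset S) (H : ℕ) : ℕ → List A → List (Option B)
  | 0, _ => []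
  | k + 1, W => if W = [] then [] else letter g B (W.take H) :: codeLast g B H k (W.drop H)

section

variable {g : A → S} {B : Finset S} {H : ℕ}

theorem letter_spec (hB : ∀ w : List A, w ≠ [] → w.length ≤ H → ∃ b ∈ B, (b : WithOne S) = evl g w)
    {w : List A} (h1 : w ≠ []) (h2 : w.length ≤ H) :
    ∃ b : B, letter g B w = some b ∧ ((b : S) : WithOne S) = evl g w := by
  obtain ⟨b, hb, h3⟩ := hB w h1 h2
  have h : ∃ b : B, ((b : S) : WithOne S) = evl g w := ⟨⟨b, hb⟩, h3⟩
  exact ⟨h.choose, by simp only [letter, dif_pos h], h.choose_spec⟩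

theorem cut_spec (hH : 2 ≤ H) (V : List A) (β : Bool) : 1 ≤ cut g H V β ∧ cut g H V β < H := by
  unfold cut
  split_ifs with h
  · exact ⟨h.2.choose_spec.1, h.2.choose_spec.2.1⟩
  · omega

theorem cut_bit (hH : 2 ≤ H) {V : List A} (hV : V.length = H)
    (h : ∃ l, 1 ≤ l ∧ l < H ∧ ∀ a, evl g (V.take l) ≠ g a) (β : Bool) :
    β = true ↔ ∀ a, evl g (V.take (cut g H V β)) ≠ g a := by
  cases β with
  | true =>
    have h' : true = true ∧ ∃ l, 1 ≤ l ∧ l < H ∧ ∀ a, evl g (V.take l) ≠ g a := ⟨rfl, h⟩
    simp only [cut, dif_pos h', true_iff]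
    exact h'.2.choose_spec.2.2
  | false =>
    rcases V with _ | ⟨a, V⟩
    · simp at hV; omega
    · simp only [cut, Bool.false_eq_true, false_and, dif_neg, not_false_eq_true, false_iff]
      intro h1
      exact h1 a (evl_single g a)

theorem codeBits_spec (hH : 2 ≤ H)
    (hB : ∀ w : List A, w ≠ [] → w.length ≤ H → ∃ b ∈ B, (b : WithOne S) = evl g w)
    (βs : List Bool) : ∀ W : List A, W.length = H * βs.length →
      ∃ y : List B, codeBits g B H βs W = y.map some ∧ evl (fun b : B => (b : S)) y = evl g W ∧
        y.length = 2 * βs.length := by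
  induction βs with
  | nil =>
    intro W hW
    obtain rfl : W = [] := List.eq_nil_of_length_eq_zero (by simpa using hW)
    exact ⟨[], rfl, by simp, rfl⟩
  | cons β βs ih =>
    intro W hW
    rw [List.length_cons, Nat.mul_succ] at hW
    obtain ⟨y, h1, h2, h3⟩ := ih (W.drop H) (by simp; omega)
    obtain ⟨c1, c2⟩ := cut_spec (g := g) hH (W.take H) β
    obtain ⟨b1, h4, h5⟩ := letter_spec hB (w := (W.take H).take (cut g H (W.take H) β))
      (List.ne_nil_of_length_pos (by simp; omega)) (by simp)
    obtain ⟨b2, h6, h7⟩ := letter_spec hB (w := (W.take H).drop (cut g H (W.take H) β))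
      (List.ne_nil_of_length_pos (by simp; omega)) (by simp)
    refine ⟨b1 :: b2 :: y, by rw [codeBits, h4, h6, h1]; rfl, ?_, by simp [h3]; omega⟩
    rw [evl_cons, evl_cons, h5, h7, h2, ← mul_assoc, ← evl_append, ← evl_append,
      List.take_append_drop, List.take_append_drop]

theorem codeBits_inj (hH : 2 ≤ H)
    (hB : ∀ w : List A, w ≠ [] → w.length ≤ H → ∃ b ∈ B, (b : WithOne S) = evl g w)
    {C : Set (List A)} (hC : ∀ x V s, x ++ V ++ s ∈ C → V.length = H →
      ∃ l, 1 ≤ l ∧ l < H ∧ ∀ a, evl g (V.take l) ≠ g a) (βs : List Bool) :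
    ∀ (βs' : List Bool) (x W s x' W' s' : List A), x ++ W ++ s ∈ C → x' ++ W' ++ s' ∈ C →
      W.length = H * βs.length → W'.length = H * βs'.length →
      codeBits g B H βs W = codeBits g B H βs' W' → βs = βs' := by
  induction βs with
  | nil => intro βs' _ _ _ _ _ _ _ _ _ _ h; cases βs' with
    | nil => rfl
    | cons β βs' => simp [codeBits] at h
  | cons β βs ih => intro βs' x W s x' W' s' h1 h2 hW hW' h; cases βs' with
    | nil => simp [codeBits] at h
    | cons β' βs' =>
      rw [List.length_cons, Nat.mul_succ] at hW hW'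
      simp only [codeBits, List.cons.injEq] at h
      have e1 : x ++ W ++ s = x ++ W.take H ++ (W.drop H ++ s) := by
        conv_lhs => rw [← List.take_append_drop H W]
        simp only [List.append_assoc]
      have e2 : x' ++ W' ++ s' = x' ++ W'.take H ++ (W'.drop H ++ s') := by
        conv_lhs => rw [← List.take_append_drop H W']
        simp only [List.append_assoc]
      rw [e1] at h1
      rw [e2] at h2
      have l1 : (W.take H).length = H := by simp; omega
      have l2 : (W'.take H).length = H := by simp; omega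
      have b1 := cut_bit hH l1 (hC _ _ _ h1 l1) β
      have b2 := cut_bit hH l2 (hC _ _ _ h2 l2) β'
      obtain ⟨c1, c2⟩ := cut_spec (g := g) hH (W.take H) β
      obtain ⟨c1', c2'⟩ := cut_spec (g := g) hH (W'.take H) β'
      obtain ⟨b, h4, h5⟩ := letter_spec hB (w := (W.take H).take (cut g H (W.take H) β))
        (List.ne_nil_of_length_pos (by simp; omega)) (by simp)
      obtain ⟨b', h6, h7⟩ := letter_spec hB (w := (W'.take H).take (cut g H (W'.take H) β'))
        (List.ne_nil_of_length_pos (by simp; omega)) (by simp)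
      rw [h4, h6] at h
      obtain rfl := Option.some.inj h.1
      rw [← h5] at b1
      rw [← h7] at b2
      have h8 : β = β' := Bool.eq_iff_iff.2 (b1.trans b2.symm)
      rw [h8, ih βs' (x ++ W.take H) (W.drop H) s (x' ++ W'.take H) (W'.drop H) s'
        (by simpa only [List.append_assoc] using h1) (by simpa only [List.append_assoc] using h2)
        (by simp; omega) (by simp; omega) h.2.2]

theorem codeLast_spec (hH : 2 ≤ H)
    (hB : ∀ w : List A, w ≠ [] → w.length ≤ H → ∃ b ∈ B, (b : WithOne S) = evl g w)
    (k : ℕ) : ∀ W : List A, W.length ≤ H * k →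
      ∃ y : List B, codeLast g B H k W = y.map some ∧ evl (fun b : B => (b : S)) y = evl g W ∧
        y.length ≤ k := by
  induction k with
  | zero =>
    intro W hW
    obtain rfl : W = [] := List.eq_nil_of_length_eq_zero (by simpa using hW)
    exact ⟨[], rfl, by simp, le_rfl⟩
  | succ k ih =>
    intro W hW
    by_cases h : W = []
    · subst h
      exact ⟨[], by simp [codeLast], by simp, by simp⟩
    rw [Nat.mul_succ] at hW
    obtain ⟨y, h1, h2, h3⟩ := ih (W.drop H) (by simp; omega)
    obtain ⟨b, h4, h5⟩ := letter_spec hB (w := W.take H)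
      (List.ne_nil_of_length_pos (by have := List.length_pos_iff.2 h; simp; omega)) (by simp)
    refine ⟨b :: y, by rw [codeLast, if_neg h, h4, h1]; rfl, ?_, by simpa using h3⟩
    rw [evl_cons, h5, h2, ← evl_append, List.take_append_drop]

end

theorem exists_bits {θ : Type*} {R : Set θ} (hR : R.Finite) : ∃ (m : ℕ) (bits : θ → List Bool),
    2 ≤ m ∧ (∀ t, (bits t).length = m) ∧ ∀ t ∈ R, ∀ t' ∈ R, bits t = bits t' → t = t' := by
  classical
  have : Finite R := hR
  obtain ⟨n, ⟨e⟩⟩ := Finite.exists_equiv_fin R
  let idx : θ → ℕ := fun t => if h : t ∈ R then e ⟨t, h⟩ else 0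
  have h1 : ∀ t, idx t ≤ n := by
    intro t
    simp only [idx]
    split_ifs with h
    · exact (e ⟨t, h⟩).2.le
    · exact Nat.zero_le _
  refine ⟨n + 2, fun t => List.replicate (idx t) true ++ List.replicate (n + 2 - idx t) false,
    by omega, fun t => by have := h1 t; simp; omega, fun t ht t' ht' h => ?_⟩
  have h2 := congrArg (List.count true) h
  simp only [List.count_append, List.count_replicate, idx, dif_pos ht, dif_pos ht'] at h2
  have h3 : e ⟨t, ht⟩ = e ⟨t', ht'⟩ := Fin.ext (by simpa using h2)
  exact congrArg Subtype.val (e.injective h3)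

theorem mark_pre {γ : Type*} {y y' : List γ} {w : List (Option γ)}
    (h : y.map some ++ [none] ++ w = y'.map some ++ [none]) : y = y' ∧ w = [] := by
  induction y generalizing y' with
  | nil => cases y' with
    | nil => simpa using h
    | cons b y' => simp at h
  | cons a y ih => cases y' with
    | nil => simp at h
    | cons b y' =>
      simp only [List.map_cons, List.cons_append, List.cons.injEq, Option.some.injEq] at h
      obtain ⟨h1, h2⟩ := ih h.2
      exact ⟨by rw [h.1, h1], h2⟩

end Pool.Agent.Lib.MP_7f7674_al
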