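import Mathlib
import Pool.Agent.Lib.MP_7f7674_al.Pump

/-!
The bounded lag lemma.
-/

set_option autoImplicit false

namespace Pool.Agent.Lib.MP_7f7674_al

variable {A : Type*}

theorem first_time (z : List (A ⊕ A)) (l : ℕ) (h : (p2 z).length + l ≤ (p1 z).length) :
    ∃ i, (p1 (z.take i)).length = (p2 (z.take i)).length + l ∧
      ∀ i', (p2 (z.take i')).length + l ≤ (p1 (z.take i')).length → i ≤ i' := by
  classical
  have hex : ∃ i, (p2 (z.take i)).length + l ≤ (p1 (z.take i)).length :=
    ⟨z.length, by simpa using h⟩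
  refine ⟨Nat.find hex, le_antisymm ?_ (Nat.find_spec hex), fun i' hi' => Nat.find_min' hex hi'⟩
  rcases hn : Nat.find hex with _ | i
  · simp
  · have h1 := Nat.find_min hex (m := i) (by omega)
    have h2 : (p1 z[i]?.toList).length ≤ 1 :=
      (List.length_filterMap_le _ _).trans (Option.length_toList_le)
    rw [List.take_add_one]
    simp only [p1_append, p2_append, List.length_append]
    omega

theorem pre_of_le {γ : Type*} {x y r s : List γ} (h : x ++ y = r ++ s) (hl : x.length ≤ r.length) :
    x <+: r :=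
  List.prefix_of_prefix_length_le ⟨y, h⟩ (List.prefix_append r s) hl

theorem lag_bound [Finite A] {K : Set (List (A ⊕ A))} (hK : Reg K)
    (htrans : ∀ u v w, Rel K u v → Rel K v w → Rel K u w) : ∃ D : ℕ,
    ∀ (z1 z2 : List (A ⊕ A)) (r s s' : List A), z1 ++ z2 ∈ K → p1 (z1 ++ z2) = r ++ s →
      p2 (z1 ++ z2) = r ++ s' → r ++ s ∉ Bad K → rty K s = rty K s' →
      (p1 z1).length ≤ r.length → (p1 z1).length ≤ (p2 z1).length + D := by
  classical
  obtain ⟨N, hN⟩ := seg_bound hK
  choose b hb using short_ty hK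
  let lev : ℕ → ℕ := fun k => Nat.rec 0 (fun _ l => l + N * (l + 1) + N * (b l + 1) + 1) k
  have hlev : ∀ k, lev (k + 1) = lev k + N * (lev k + 1) + N * (b (lev k) + 1) + 1 := fun _ => rfl
  have hmono : Monotone lev := monotone_nat_of_le_succ fun k => by rw [hlev]; omega
  have hfin := hK.prod ((finite_range_ty hK).prod (reg_bad hK))
  refine ⟨lev hfin.toFinset.card, fun z1 z2 r s s' hz h1 h2 hbad hs hr => ?_⟩
  by_contra hlt
  push Not at hlt
  have hI : ∀ k, k ≤ hfin.toFinset.card → ∃ i,
      (p1 (z1.take i)).length = (p2 (z1.take i)).length + lev k ∧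
      ∀ i', (p2 (z1.take i')).length + lev k ≤ (p1 (z1.take i')).length → i ≤ i' :=
    fun k hk => first_time z1 _ (by have := hmono hk; omega)
  choose! I hI1 hI2 using hI
  obtain ⟨k, hk, k', hk', hne, hcol⟩ := Finset.exists_ne_map_eq_of_card_lt_of_maps_to
    (s := Finset.range (hfin.toFinset.card + 1)) (t := hfin.toFinset) (by simp)
    (f := fun k => (lq K (z1.take (I k)),
      ty K ((p1 (z1.take (I k))).drop (p2 (z1.take (I k))).length),
      lq (Bad K) (p1 (z1.take (I k))))) (fun i _ => by simp)
  simp only [Finset.mem_range] at hk hk'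
  wlog hkk : k < k' generalizing k k'
  · exact this k' k hne.symm hcol.symm hk' hk (by omega)
  have e1 := hI1 k (by omega)
  have e2 := hI1 k' (by omega)
  have hl : lev k + N * (lev k + 1) + N * (b (lev k) + 1) + 1 ≤ lev k' := hlev k ▸ hmono hkk
  have hle : I k ≤ I k' := hI2 k (by omega) _ (by omega)
  obtain ⟨c, hc⟩ := List.take_prefix_take_left (l := z1) hle
  obtain ⟨z3, hz3⟩ := List.take_prefix (I k') z1
  rw [← hc] at hcol e2 hz3
  generalize z1.take (I k) = y at *
  subst hz3
  simp only [Prod.mk.injEq] at hcol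
  obtain ⟨c1, c2, c3⟩ := hcol
  simp only [p1_append, p2_append, List.length_append] at h1 h2 hr e2 hlt
  have q1 : p1 y ++ p1 c <+: r := pre_of_le (y := p1 z3 ++ p1 z2) (by simpa using h1)
    (by simp; omega)
  have q2 : p2 y ++ p2 c <+: r := pre_of_le (y := p2 z3 ++ p2 z2) (by simpa using h2)
    (by simp; omega)
  have q3 : p1 y <+: r := (List.prefix_append _ _).trans q1
  have q4 : p2 y <+: r := (List.prefix_append _ _).trans q2
  obtain ⟨X, hX⟩ := List.prefix_of_prefix_length_le q4 q3 (by omega)
  obtain ⟨X', hX'⟩ := List.prefix_of_prefix_length_le q2 q1 (by simp; omega)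
  have lX : X.length = lev k := by have := congrArg List.length hX; simp at this; omega
  have lX' : X'.length = lev k' := by have := congrArg List.length hX'; simp at this; omega
  have c2' : ty K X = ty K X' := by
    rw [p1_append, p2_append, ← hX', ← hX] at c2
    simpa using c2
  by_cases hcase : (p1 y).length ≤ (p2 y ++ p2 c).length
  · obtain ⟨Z, hZ⟩ := List.prefix_of_prefix_length_le q3 q2 hcase
    obtain ⟨t, ht⟩ := q1
    have f1 : p1 c = Z ++ X' := by
      rw [← hZ, List.append_assoc] at hX'
      exact (List.append_cancel_left hX').symm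
    have f2 : p2 c = X ++ Z := by
      rw [← hX, List.append_assoc] at hZ
      exact (List.append_cancel_left hZ).symm
    have f3 : p1 z3 ++ p1 z2 = t ++ s := by
      rw [← ht] at h1
      simpa using h1
    have f4 : p2 z3 ++ p2 z2 = X' ++ t ++ s' := by
      rw [← ht, ← hX'] at h2
      simpa using h2
    refine no_pump hK htrans hN (r := p2 y) (t := t) (Z := Z) c2' (hb (lev k) X lX.le)
      (by omega) hs (fun p => ⟨y ++ rep c p ++ (z3 ++ z2), ?_, ?_, ?_⟩) (fun p hp => hbad ?_)
    · exact mem_of_lq ((lq_rep c1.symm p).trans c1).symm (by simpa using hz)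
    · simp [p1_rep, f1, f3, ← hX]
    · simp [p2_rep, f2, f4]
    · rw [p1_append, f1] at c3
      have := mem_of_lq (L := Bad K) (y := t ++ s) ((lq_rep c3.symm p).trans c3)
        (by rw [← hX]; simpa using hp)
      rw [← ht, f1]
      simpa using this
  · have := hN y c (z3 ++ z2) (by simpa using hz) (by
      have : p1 (y ++ c ++ (z3 ++ z2)) = r ++ s := by simpa using h1
      rw [this]; exact hbad)
    have h3 : N * ((p2 c).length + 1) ≤ N * (lev k + 1) :=
      Nat.mul_le_mul_left _ (by simp at hcase; omega)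
    omega

end Pool.Agent.Lib.MP_7f7674_al
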