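import Mathlib
import Pool.Agent.Lib.MP_7f7674_al.Lag

/-!
Every rational equivalence relation has a regular cross-section.
-/

set_option autoImplicit false

namespace Pool.Agent.Lib.MP_7f7674_al

variable {A : Type*}

/-- Runs of the buffer automaton comparing the two tapes. -/
inductive SR (D : ℕ) : List A × List A → List (A ⊕ A) → List A × List A → Prop
  | nil (d : List A × List A) : SR D d [] d
  | cons {d d' e : List A × List A} {g : A ⊕ A} {z : List (A ⊕ A)} (c : List A) :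
      d.1 ++ p1 [g] = c ++ d'.1 → d.2 ++ p2 [g] = c ++ d'.2 → d'.1.length ≤ D →
      d'.2.length ≤ D → SR D d' z e → SR D d (g :: z) e

theorem SR.append {D : ℕ} {d m e : List A × List A} {x y : List (A ⊕ A)} (h : SR D d x m)
    (h' : SR D m y e) : SR D d (x ++ y) e := by
  induction h with
  | nil d => exact h'
  | cons c h1 h2 h3 h4 _ ih => exact .cons c h1 h2 h3 h4 (ih h')

theorem SR.split {D : ℕ} {e : List A × List A} {y : List (A ⊕ A)} (x : List (A ⊕ A)) :
    ∀ d : List A × List A, SR D d (x ++ y) e →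
      ∃ m, (m = d ∨ (m.1.length ≤ D ∧ m.2.length ≤ D)) ∧ SR D d x m ∧ SR D m y e := by
  induction x with
  | nil => intro d h; exact ⟨d, Or.inl rfl, .nil d, h⟩
  | cons g x ih =>
    intro d h
    cases h with
    | cons c h1 h2 h3 h4 h5 =>
      obtain ⟨m, h6, h7, h8⟩ := ih _ h5
      refine ⟨m, Or.inr ?_, .cons c h1 h2 h3 h4 h7, h8⟩
      rcases h6 with rfl | h6
      exacts [⟨h3, h4⟩, h6]

theorem reg_SR [Finite A] (D : ℕ) (d e : List A × List A) : Reg {z | SR D d z e} := by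
  refine reg_of_cover ((fun m => {z | SR D m z e}) ''
    insert d ({l : List A | l.length ≤ D} ×ˢ {l : List A | l.length ≤ D}))
    ((((List.finite_length_le A D).prod (List.finite_length_le A D)).insert d).image _) ?_
  intro x y hxy
  obtain ⟨m, h1, h2, h3⟩ := SR.split x d hxy
  exact ⟨_, ⟨m, h1, rfl⟩, h3, fun y' hy' => h2.append hy'⟩

theorem p1_cons (g : A ⊕ A) (z : List (A ⊕ A)) : p1 (g :: z) = p1 [g] ++ p1 z :=
  p1_append [g] z

theorem p2_cons (g : A ⊕ A) (z : List (A ⊕ A)) : p2 (g :: z) = p2 [g] ++ p2 z :=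
  p2_append [g] z

theorem SR.sound {D : ℕ} {d e : List A × List A} {z : List (A ⊕ A)} (h : SR D d z e) :
    ∃ c, d.1 ++ p1 z = c ++ e.1 ∧ d.2 ++ p2 z = c ++ e.2 := by
  induction h with
  | nil d => exact ⟨[], by simp, by simp⟩
  | cons c h1 h2 _ _ _ ih =>
    obtain ⟨c', h3, h4⟩ := ih
    refine ⟨c ++ c', ?_, ?_⟩
    · rw [p1_cons, ← List.append_assoc, h1, List.append_assoc, h3, List.append_assoc]
    · rw [p2_cons, ← List.append_assoc, h2, List.append_assoc, h4, List.append_assoc]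

theorem SR.complete {D : ℕ} {r : List A} (z1 : List (A ⊕ A)) :
    ∀ (z0 : List (A ⊕ A)) (c0 : List A) (d : List A × List A), p1 z0 = c0 ++ d.1 →
      p2 z0 = c0 ++ d.2 → d.1.length ≤ D → d.2.length ≤ D → p1 (z0 ++ z1) <+: r →
      p2 (z0 ++ z1) <+: r →
      (∀ z', z' <+: z0 ++ z1 → (p1 z').length ≤ (p2 z').length + D ∧
        (p2 z').length ≤ (p1 z').length + D) →
      ∃ e, SR D d z1 e ∧ e.1.length ≤ D ∧ e.2.length ≤ D := by
  induction z1 with
  | nil => intro z0 c0 d _ _ h3 h4 _ _ _; exact ⟨d, .nil d, h3, h4⟩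
  | cons g z1 ih =>
    intro z0 c0 d h1 h2 _ _ h5 h6 h7
    have e : z0 ++ g :: z1 = (z0 ++ [g]) ++ z1 := by simp
    rw [e] at h5 h6 h7
    obtain ⟨l1, l2⟩ := h7 _ (List.prefix_append _ _)
    have q1 : p1 (z0 ++ [g]) <+: r := (p1_append _ z1 ▸ List.prefix_append _ _).trans h5
    have q2 : p2 (z0 ++ [g]) <+: r := (p2_append _ z1 ▸ List.prefix_append _ _).trans h6
    rcases List.prefix_or_prefix_of_prefix q1 q2 with ⟨t, ht⟩ | ⟨t, ht⟩
    · have f1 : d.2 ++ p2 [g] = (d.1 ++ p1 [g]) ++ t := by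
        rw [p1_append, p2_append, h1, h2] at ht
        simpa using ht.symm
      have f2 : t.length ≤ D := by rw [← ht, List.length_append] at l2; omega
      obtain ⟨e, h8, h9⟩ := ih (z0 ++ [g]) (p1 (z0 ++ [g])) ([], t) (by simp) ht.symm (by simp)
        f2 h5 h6 h7
      exact ⟨e, .cons (d' := ([], t)) (d.1 ++ p1 [g]) (by simp) f1 (by simp) f2 h8, h9⟩
    · have f1 : d.1 ++ p1 [g] = (d.2 ++ p2 [g]) ++ t := by
        rw [p1_append, p2_append, h1, h2] at ht
        simpa using ht.symm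
      have f2 : t.length ≤ D := by rw [← ht, List.length_append] at l1; omega
      obtain ⟨e, h8, h9⟩ := ih (z0 ++ [g]) (p2 (z0 ++ [g])) (t, []) ht.symm (by simp) f2
        (by simp) h5 h6 h7
      exact ⟨e, .cons (d' := (t, [])) (d.2 ++ p2 [g]) f1 (by simp) f2 (by simp) h8, h9⟩

/-- A word whose letters are labelled using the rest of the word. -/
def ann {T : Type*} (lab : A → List A → T) : List A → List T
  | [] => []
  | a :: s => lab a s :: ann lab s

/-- Comparison of first letters. -/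
def HL {T : Type*} [LinearOrder T] (o' o : Option T) : Prop :=
  ∃ a, o = some a ∧ ∀ b, o' = some b → b < a

theorem ann_injective {T : Type*} {lab : A → List A → T}
    (h : ∀ a s a' s', lab a s = lab a' s' → a = a') : Function.Injective (ann lab) := by
  intro u
  induction u with
  | nil => intro v hv; cases v with
    | nil => rfl
    | cons b v => simp [ann] at hv
  | cons a u ih => intro v hv; cases v with
    | nil => simp [ann] at hv
    | cons b v =>
      simp only [ann, List.cons.injEq] at hv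
      rw [h _ _ _ _ hv.1, ih hv.2]

theorem ann_lt_iff {T σ : Type*} [LinearOrder T] {lab : A → List A → T} {τ : List A → σ}
    (h1 : ∀ a s a' s', lab a s = lab a' s' → a = a' ∧ τ s = τ s')
    (h2 : ∀ a s s', τ s = τ s' → lab a s = lab a s')
    (h3 : ∀ x s s', τ s = τ s' → τ (x ++ s) = τ (x ++ s')) (u v : List A) :
    ann lab v < ann lab u ↔ ∃ r s s', u = r ++ s ∧ v = r ++ s' ∧ (r = [] ∨ τ s = τ s') ∧
      HL (ann lab s').head? (ann lab s).head? := by
  constructor
  · intro h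
    induction v generalizing u with
    | nil =>
      cases u with
      | nil => exact absurd h (lt_irrefl _)
      | cons a u => exact ⟨[], a :: u, [], rfl, rfl, Or.inl rfl, _, rfl, by simp [ann]⟩
    | cons b v ih =>
      cases u with
      | nil => exact absurd h (List.not_lt_nil _)
      | cons a u =>
        rcases List.cons_lt_cons_iff.1 h with h | ⟨h, h'⟩
        · exact ⟨[], a :: u, b :: v, rfl, rfl, Or.inl rfl, _, rfl, by simpa [ann] using h⟩
        · obtain ⟨rfl, h4⟩ := h1 _ _ _ _ h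
          obtain ⟨r, s, s', rfl, rfl, h5, h6⟩ := ih u h'
          refine ⟨b :: r, s, s', rfl, rfl, Or.inr ?_, h6⟩
          rcases h5 with rfl | h5
          exacts [h4.symm, h5]
  · rintro ⟨r, s, s', rfl, rfl, h4, a, h5, h6⟩
    induction r with
    | nil =>
      cases s with
      | nil => simp [ann] at h5
      | cons a' s =>
        cases s' with
        | nil => exact List.nil_lt_cons _ _
        | cons b s' =>
          simp only [ann, List.head?_cons, Option.some.injEq] at h5 h6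
          exact List.cons_lt_cons_iff.2 (Or.inl (h5 ▸ h6 _ rfl))
    | cons a' r ih =>
      have h7 : τ s = τ s' := h4.resolve_left (by simp)
      exact List.cons_lt_cons_iff.2 (Or.inr ⟨h2 _ _ _ (h3 _ _ _ h7.symm), ih (Or.inr h7)⟩)

theorem reg_tail {σ : Type*} (κ : List A → σ) (hfin : (Set.range κ).Finite)
    (h : ∀ x y y', κ y = κ y' → κ (x ++ y) = κ (x ++ y')) (Φ : σ → σ → Prop) (d1 d2 e : List A) :
    Reg {z : List (A ⊕ A) | ∃ s s', d1 ++ p1 z = e ++ s ∧ d2 ++ p2 z = e ++ s' ∧ Φ (κ s) (κ s')} := by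
  have : {z : List (A ⊕ A) | ∃ s s', d1 ++ p1 z = e ++ s ∧ d2 ++ p2 z = e ++ s' ∧ Φ (κ s) (κ s')} =
      ⋃ k ∈ Set.range κ, (p1 ⁻¹' lq (cat {e} {s | κ s = k}) d1 ∩
        p2 ⁻¹' lq (cat {e} {s | Φ k (κ s)}) d2) := by
    ext z
    constructor
    · rintro ⟨s, s', h1, h2, h3⟩
      exact Set.mem_biUnion (x := κ s) ⟨s, rfl⟩ ⟨⟨e, rfl, s, rfl, h1⟩, ⟨e, rfl, s', h3, h2⟩⟩
    · intro hz
      obtain ⟨k, -, ⟨_, rfl, s, rfl, h1⟩, ⟨_, rfl, s', h3, h2⟩⟩ := Set.mem_iUnion₂.1 hz
      exact ⟨s, s', h1, h2, h3⟩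
  rw [this]
  refine Reg.biUnion hfin fun k _ => Reg.inter ?_ ?_
  · exact (((reg_singleton e).cat (reg_of_rcong κ hfin h (· = k))).lq _).preimage _ p1_append
  · exact (((reg_singleton e).cat (reg_of_rcong κ hfin h (Φ k))).lq _).preimage _ p2_append

theorem reg_nonmin [Finite A] {K : Set (List (A ⊕ A))} (hK : Reg K)
    (hsw : ∀ z ∈ K, z.map Sum.swap ∈ K)
    (htrans : ∀ u v w, Rel K u v → Rel K v w → Rel K u w) {T : Type*} [LinearOrder T]
    {lab : A → List A → T} (h1 : ∀ a s a' s', lab a s = lab a' s' → a = a' ∧ rty K s = rty K s')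
    (h2 : ∀ a s s', rty K s = rty K s' → lab a s = lab a s') :
    Reg {u | ∃ v, Rel K u v ∧ u ∉ Bad K ∧ v ∉ Bad K ∧ ann lab v < ann lab u} := by
  obtain ⟨D, hD⟩ := lag_bound hK htrans
  let κ : List A → Set (Set (List (A ⊕ A))) × Option T := fun s => (rty K s, (ann lab s).head?)
  have hκ : ∀ x y y', κ y = κ y' → κ (x ++ y) = κ (x ++ y') := by
    intro x y y' h
    have h' : rty K y = rty K y' := congrArg Prod.fst h
    cases x with
    | nil => exact h
    | cons a x =>
      refine Prod.ext (rty_append _ h') ?_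
      exact congrArg some (h2 _ _ _ (rty_append _ h'))
  have hκfin : (Set.range κ).Finite := by
    refine finite_range_pair (finite_range_rty hK) ?_
    classical
    refine (((Set.finite_univ (α := A)).prod (finite_range_rty hK)).image
      (fun p => some (lab p.1 (if h : ∃ s, rty K s = p.2 then h.choose else [])))
      |>.insert none).subset ?_
    rintro _ ⟨s, rfl⟩
    cases s with
    | nil => exact Or.inl rfl
    | cons a s =>
      refine Or.inr ⟨(a, rty K s), ⟨trivial, s, rfl⟩, ?_⟩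
      have h : ∃ s', rty K s' = rty K s := ⟨s, rfl⟩
      simp only [dif_pos h]
      exact congrArg some (h2 _ _ _ h.choose_spec)
  have hfin := List.finite_length_le A D
  let K1 : Set (List (A ⊕ A)) :=
    {z | ∃ s s', [] ++ p1 z = [] ++ s ∧ [] ++ p2 z = [] ++ s' ∧ HL (κ s').2 (κ s).2}
  let K2 : Set (List (A ⊕ A)) := ⋃ q ∈ ({l : List A | l.length ≤ D} ×ˢ
      {l : List A | l.length ≤ D}) ×ˢ {l : List A | l.length ≤ D},
    cat {z | SR D ([], []) z q.1} {z | ∃ s s', q.1.1 ++ p1 z = q.2 ++ s ∧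
      q.1.2 ++ p2 z = q.2 ++ s' ∧ ((κ s).1 = (κ s').1 ∧ HL (κ s').2 (κ s).2)}
  have hK1 : Reg K1 := reg_tail κ hκfin hκ (fun k k' => HL k'.2 k.2) [] [] []
  have hK2 : Reg K2 := Reg.biUnion ((hfin.prod hfin).prod hfin) fun q _ =>
    (reg_SR D _ _).cat (reg_tail κ hκfin hκ (fun k k' => k.1 = k'.1 ∧ HL k'.2 k.2) _ _ _)
  have hlt := ann_lt_iff h1 h2 (fun x _ _ => rty_append x)
  have : {u | ∃ v, Rel K u v ∧ u ∉ Bad K ∧ v ∉ Bad K ∧ ann lab v < ann lab u} =
      List.filterMap Sum.getLeft? ''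
        (K ∩ (p1 ⁻¹' (Bad K)ᶜ ∩ (p2 ⁻¹' (Bad K)ᶜ ∩ (K1 ∪ K2)))) := by
    ext u
    constructor
    · rintro ⟨_, ⟨z, hz, rfl, rfl⟩, h3, h4, h5⟩
      refine ⟨z, ⟨hz, h3, h4, ?_⟩, rfl⟩
      obtain ⟨r, s, s', h6, h7, h8 | h8, h9⟩ := (hlt _ _).1 h5
      · subst h8
        exact Or.inl ⟨s, s', h6, h7, h9⟩
      right
      have key : ∀ z1 z2, z = z1 ++ z2 → p1 z1 <+: r → p2 z1 <+: r → (p1 z1 = r ∨ p2 z1 = r) →
          z ∈ K2 := by
        rintro z1 z2 rfl q1 q2 q3
        obtain ⟨e, h10, h11, h12⟩ := SR.complete (D := D) (r := r) z1 [] [] ([], []) rfl rfl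
          (by simp) (by simp) q1 q2 (by
            rintro z' ⟨z3, hz3⟩
            rw [List.nil_append] at hz3
            subst hz3
            have l1 := q1.length_le
            have l2 := q2.length_le
            simp only [p1_append, p2_append, List.length_append] at l1 l2
            refine ⟨hD z' (z3 ++ z2) r s s' (by simpa using hz) (by simpa using h6)
              (by simpa using h7) (h6 ▸ h3) h8 (by omega), ?_⟩
            have := hD (z'.map Sum.swap) ((z3 ++ z2).map Sum.swap) r s' s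
              (by simpa using hsw _ hz) (by simpa using h7) (by simpa using h6) (h7 ▸ h4) h8.symm
              (by simp; omega)
            simpa using this)
        obtain ⟨c, h13, h14⟩ := h10.sound
        simp only [List.nil_append] at h13 h14
        rw [p1_append, h13] at h6
        rw [p2_append, h14] at h7
        rcases q3 with q3 | q3
        · rw [← q3, h13] at h6 h7
          exact Set.mem_biUnion (x := (e, e.1)) ⟨⟨h11, h12⟩, h11⟩ ⟨z1, h10, z2,
            ⟨s, s', by simpa using h6, by simpa using h7, h8, h9⟩, rfl⟩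
        · rw [← q3, h14] at h6 h7
          exact Set.mem_biUnion (x := (e, e.2)) ⟨⟨h11, h12⟩, h12⟩ ⟨z1, h10, z2,
            ⟨s, s', by simpa using h6, by simpa using h7, h8, h9⟩, rfl⟩
      obtain ⟨za, zb, e1, e2, -⟩ := p1_split h6
      obtain ⟨za', zb', e1', e2', -⟩ := p2_split h7
      rcases List.prefix_or_prefix_of_prefix ⟨zb, e1.symm⟩ ⟨zb', e1'.symm⟩ with ⟨t, ht⟩ | ⟨t, ht⟩
      · exact key za zb e1 (e2 ▸ List.prefix_refl _) ⟨p2 t, by rw [← e2', ← ht, p2_append]⟩
          (Or.inl e2)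
      · exact key za' zb' e1' ⟨p1 t, by rw [← e2, ← ht, p1_append]⟩ (e2' ▸ List.prefix_refl _)
          (Or.inr e2')
    · rintro ⟨z, ⟨hz, h3, h4, h5⟩, rfl⟩
      refine ⟨p2 z, ⟨z, hz, rfl, rfl⟩, h3, h4, (hlt _ _).2 ?_⟩
      rcases h5 with ⟨s, s', h6, h7, h8⟩ | h5
      · exact ⟨[], s, s', h6, h7, Or.inl rfl, h8⟩
      · obtain ⟨q, -, z1, h6, z2, ⟨s, s', h7, h8, h9, h10⟩, rfl⟩ := Set.mem_iUnion₂.1 h5
        obtain ⟨c, h13, h14⟩ := SR.sound h6
        simp only [List.nil_append] at h13 h14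
        refine ⟨c ++ q.2, s, s', ?_, ?_, Or.inr h9, h10⟩
        · show p1 (z1 ++ z2) = _
          rw [p1_append, h13, List.append_assoc, h7, List.append_assoc]
        · rw [p2_append, h14, List.append_assoc, h8, List.append_assoc]
  rw [this]
  exact (hK.inter (((reg_bad hK).compl.preimage _ p1_append).inter
    (((reg_bad hK).compl.preimage _ p2_append).inter (hK1.union hK2)))).image_filterMap _

/-- Every rational equivalence relation has a regular cross-section. -/
theorem cross_section [Finite A] {R : List A → List A → Prop} (hR : NRat R)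
    (hsymm : ∀ u v, R u v → R v u) (htrans : ∀ u v w, R u v → R v w → R u w) :
    ∃ C, Reg C ∧ (∀ c ∈ C, R c c) ∧ (∀ u, R u u → ∃ c ∈ C, R u c) ∧
      ∀ c ∈ C, ∀ c' ∈ C, R c c' → c = c' := by
  classical
  obtain ⟨K0, hK0, hR0⟩ := hR
  obtain ⟨K, hK, hsw, hR⟩ : ∃ K : Set (List (A ⊕ A)), Reg K ∧ (∀ z ∈ K, z.map Sum.swap ∈ K) ∧
      ∀ u v, R u v ↔ Rel K u v := by
    refine ⟨K0 ∪ List.map Sum.swap ⁻¹' K0,
      hK0.union (hK0.preimage _ fun _ _ => List.map_append), ?_, fun u v => ⟨?_, ?_⟩⟩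
    · rintro z (hz | hz)
      · exact Or.inr (by simpa using hz)
      · exact Or.inl hz
    · intro h
      obtain ⟨z, hz, h⟩ := (hR0 _ _).1 h
      exact ⟨z, Or.inl hz, h⟩
    · rintro ⟨z, hz | hz, rfl, rfl⟩
      · exact (hR0 _ _).2 ⟨z, hz, rfl, rfl⟩
      · exact hsymm _ _ ((hR0 _ _).2 ⟨_, hz, by simp, by simp⟩)
  obtain rfl : R = Rel K := by ext u v; exact hR u v
  obtain ⟨lo, -⟩ := exists_wellFoundedLT (A × Set (Set (List (A ⊕ A))))
  let lab : A → List A → A × Set (Set (List (A ⊕ A))) := fun a s => (a, rty K s)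
  have h1 : ∀ a s a' s', lab a s = lab a' s' → a = a' ∧ rty K s = rty K s' :=
    fun a s a' s' h => Prod.ext_iff.1 h
  have hNM := reg_nonmin hK hsw htrans h1 (fun a s s' h => by simp only [lab, h])
  obtain ⟨N, hN⟩ := seg_bound hK
  refine ⟨List.filterMap Sum.getLeft? '' K ∩ ((Bad K)ᶜ ∩ _ᶜ),
    (hK.image_filterMap _).inter ((reg_bad hK).compl.inter hNM.compl), ?_, ?_, ?_⟩
  · rintro _ ⟨⟨z, hz, rfl⟩, -⟩
    exact htrans _ _ _ ⟨z, hz, rfl, rfl⟩ (hsymm _ _ ⟨z, hz, rfl, rfl⟩)
  · intro u hu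
    have hfin : {v | Rel K u v ∧ v ∉ Bad K}.Finite := by
      refine (List.finite_length_le A (N * (u.length + 1))).subset ?_
      rintro v ⟨h2, h3⟩
      obtain ⟨z, hz, rfl, rfl⟩ := hsymm _ _ h2
      exact hN [] z [] (by simpa using hz) (by simpa using h3)
    have hne : {v | Rel K u v ∧ v ∉ Bad K}.Nonempty := by
      have hex : ∃ n, ∃ v, Rel K u v ∧ v.length = n := ⟨_, u, hu, rfl⟩
      obtain ⟨v, hv, hlen⟩ := Nat.find_spec hex
      refine ⟨v, hv, ?_⟩
      rintro ⟨z1, x, z2, hx, h2, h3, rfl⟩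
      have h4 : Rel K u (p1 (z1 ++ z2)) :=
        htrans _ _ _ (htrans _ _ _ hv ⟨_, h3, rfl, rfl⟩)
          (hsymm _ _ ⟨_, mem_of_lq h2 h3, rfl, by simp⟩)
      have h5 := Nat.find_min' hex ⟨_, h4, rfl⟩
      rw [← hlen] at h5
      simp only [p1_append, p1_map_inl, List.length_append] at h5
      exact hx (List.eq_nil_of_length_eq_zero (by omega))
    obtain ⟨c, ⟨h2, h3⟩, h4⟩ := Set.exists_min_image _ (ann lab) hfin hne
    refine ⟨c, ⟨?_, h3, ?_⟩, h2⟩
    · obtain ⟨z, hz, h5, -⟩ := hsymm _ _ h2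
      exact ⟨z, hz, h5⟩
    · rintro ⟨v, h5, -, h6, h7⟩
      exact absurd (h4 v ⟨htrans _ _ _ h2 h5, h6⟩) (not_le.2 h7)
  · rintro c ⟨-, h2, h3⟩ c' ⟨-, h2', h3'⟩ h
    apply ann_injective (lab := lab) fun a s a' s' h => (h1 a s a' s' h).1
    rcases lt_trichotomy (ann lab c) (ann lab c') with h4 | h4 | h4
    · exact (h3' ⟨c, hsymm _ _ h, h2', h2, h4⟩).elim
    · exact h4
    · exact (h3 ⟨c', h, h2, h2', h4⟩).elim

end Pool.Agent.Lib.MP_7f7674_al
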