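import Pool.Agent.Lib.MP_7f7674_al.Main

/-!
A three-generated semigroup that is quasi-automatic but has no asynchronously automatic structure
over its three generators.
-/

set_option autoImplicit false

open scoped Pointwise
open FreeMonoid

namespace Pool.Agent.Lib.MP_7f7674_al

section rat

variable {M N : Type*} [Monoid M] [Monoid N]

theorem IsRat.image {X : Set M} (h : IsRat X) (f : M →* N) : IsRat (f '' X) := by
  induction h with
  | finite h => exact .finite (h.image f)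
  | union _ _ h1 h2 => rw [Set.image_union]; exact h1.union h2
  | mul _ _ h1 h2 => rw [Set.image_mul]; exact h1.mul h2
  | star _ h =>
    rw [Set.image_iUnion]
    simp only [Set.image_pow]
    exact h.star

theorem IsRat.prod {X : Set M} {Y : Set N} (h : IsRat X) (h' : IsRat Y) : IsRat (X ×ˢ Y) := by
  convert (h.image (MonoidHom.inl M N)).mul (h'.image (MonoidHom.inr M N)) using 1
  ext ⟨x, y⟩
  constructor
  · rintro ⟨h1, h2⟩
    exact ⟨_, ⟨x, h1, rfl⟩, _, ⟨y, h2, rfl⟩, by simp⟩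
  · rintro ⟨_, ⟨a, ha, rfl⟩, _, ⟨b, hb, rfl⟩, e⟩
    simp only [MonoidHom.inl_apply, MonoidHom.inr_apply, Prod.mk_mul_mk, mul_one, one_mul,
      Prod.mk.injEq] at e
    exact ⟨e.1 ▸ ha, e.2 ▸ hb⟩

theorem isRat_line (p q r : M) : IsRat (Set.range fun n : ℕ => p * q ^ n * r) := by
  convert ((IsRat.finite (Set.finite_singleton p)).mul
    (IsRat.finite (Set.finite_singleton q)).star).mul (.finite (Set.finite_singleton r)) using 1
  ext x
  simp only [Set.singleton_pow, Set.mul_iUnion, Set.iUnion_mul, Set.singleton_mul_singleton,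
    Set.mem_iUnion, Set.mem_singleton_iff, Set.mem_range, eq_comm]

end rat

section run

variable {Q T : Type*} {tape : Q → Bool} {next : Q → T → Option Q}

theorem run_append {q r f : Q} {x y x' y' : List T} (h : Run tape next q x y r)
    (h' : Run tape next r x' y' f) : Run tape next q (x ++ x') (y ++ y') f := by
  induction h with
  | nil q => exact h'
  | fst h1 h2 _ ih => exact .fst h1 h2 (ih h')
  | snd h1 h2 _ ih => exact .snd h1 h2 (ih h')

theorem run_split {q f : Q} {x y : List T} (h : Run tape next q x y f) :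
    ∀ {p s s' : List T} {f' : Q}, x = p ++ s → Run tape next q (p ++ s') y f' →
      ∃ r y1 y2, y = y1 ++ y2 ∧ Run tape next q p y1 r ∧ Run tape next r s y2 f ∧
        Run tape next r s' y2 f' := by
  induction h with
  | nil q =>
    intro p s s' f' e h'
    obtain ⟨rfl, rfl⟩ := List.append_eq_nil_iff.1 e.symm
    exact ⟨q, [], [], rfl, .nil q, .nil q, h'⟩
  | @fst q q' r a x y h1 h2 h3 ih =>
    intro p s s' f' e h'
    cases p with
    | nil => exact ⟨q, [], y, rfl, .nil q, (show a :: x = s from e) ▸ .fst h1 h2 h3, h'⟩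
    | cons b p =>
      obtain ⟨rfl, e'⟩ := List.cons.inj e
      cases h' with
      | fst k1 k2 k3 =>
        obtain rfl := Option.some.inj (h2.symm.trans k2)
        obtain ⟨r, y1, y2, a1, a2, a3, a4⟩ := ih e' k3
        exact ⟨r, y1, y2, a1, .fst h1 h2 a2, a3, a4⟩
      | snd k1 k2 k3 => simp [h1] at k1
  | @snd q q' r a x y h1 h2 h3 ih =>
    intro p s s' f' e h'
    cases p with
    | nil => exact ⟨q, [], a :: y, rfl, .nil q, (show x = s from e) ▸ .snd h1 h2 h3, h'⟩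
    | cons b p =>
      cases h' with
      | fst k1 k2 k3 => simp [h1] at k1
      | snd k1 k2 k3 =>
        obtain rfl := Option.some.inj (h2.symm.trans k2)
        obtain ⟨r, y1, y2, a1, a2, a3, a4⟩ := ih e k3
        exact ⟨r, a :: y1, y2, congrArg _ a1, .snd h1 h2 a2, a3, a4⟩

theorem mark_inj {A : Type*} {u v : FreeMonoid A} (h : mark u = mark v) : u = v :=
  toList.injective (List.map_injective_iff.2 (Option.some_injective A) (List.append_cancel_right h))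

end run

/-- Words over the three letters. -/
abbrev W3 := FreeMonoid (Fin 3)

/-- Words with an inner occurrence of the letter `0`. -/
def dZ : Set W3 := {w | ∃ s t, s ≠ 1 ∧ t ≠ 1 ∧ w = s * of 0 * t}

/-- The word `0 1^n`. -/
def dA (n : ℕ) : W3 := of 0 * of 1 ^ n

/-- The defining congruence. -/
def dR (u v : W3) : Prop := u = v ∨ (u ∈ dZ ∧ v ∈ dZ) ∨
  ∃ n, (u = dA (2 * n) * of 0 ∧ v = dA n * of 2 * of 0) ∨
    (u = dA n * of 2 * of 0 ∧ v = dA (2 * n) * of 0)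

theorem toList_dA (n : ℕ) : toList (dA n) = 0 :: List.replicate n 1 := by
  have : toList ((of 1 : W3) ^ n) = List.replicate n 1 := by
    induction n with
    | zero => rfl
    | succ n ih => rw [pow_succ', toList_of_mul, ih, List.replicate_succ]
  rw [dA, toList_of_mul, this]

theorem mul_ne_l {u : W3} (h : u ≠ 1) (v : W3) : u * v ≠ 1 := fun e =>
  h (List.append_eq_nil_iff.1 e).1

theorem mul_ne_r (u : W3) {v : W3} (h : v ≠ 1) : u * v ≠ 1 := fun e =>
  h (List.append_eq_nil_iff.1 e).2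

theorem dA_ne (n : ℕ) : dA n ≠ 1 := mul_ne_l (of_ne_one _) _

theorem dA_inj {m n : ℕ} (h : dA m = dA n) : m = n := by
  have := congrArg (fun w => (toList w).length) h
  simpa [toList_dA] using this

theorem dA_ne_two (m n : ℕ) : dA m ≠ dA n * of 2 := fun h => by
  have h1 : (2 : Fin 3) ∈ toList (dA m) := by rw [h, toList_mul]; simp
  simp [toList_dA] at h1

theorem mul_of_mem_dZ {u : W3} {i : Fin 3} :
    u * of i ∈ dZ ↔ ∃ s t, s ≠ 1 ∧ u = s * of 0 * t := by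
  constructor
  · rintro ⟨s, t, h1, h2, e⟩
    obtain ⟨t', b, rfl⟩ : ∃ (t' : W3) (b : Fin 3), t = t' * of b :=
      ⟨ofList (toList t).dropLast, (toList t).getLast h2, (List.dropLast_append_getLast h2).symm⟩
    rw [← mul_assoc] at e
    exact ⟨s, t', h1, (List.append_inj' e rfl).1⟩
  · rintro ⟨s, t, h1, rfl⟩
    exact ⟨s, t * of i, h1, mul_ne_r _ (of_ne_one _), mul_assoc _ _ _⟩

theorem not_inner {u : W3} (h : (0 : Fin 3) ∉ (toList u).tail) :
    ¬∃ s t, s ≠ 1 ∧ u = s * of 0 * t := by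
  rintro ⟨s, t, h1, rfl⟩
  obtain ⟨a, s', rfl⟩ : ∃ (a : Fin 3) (s' : W3), s = of a * s' := by
    induction s using FreeMonoid.casesOn with
    | one => exact absurd rfl h1
    | of_mul a s' => exact ⟨a, s', rfl⟩
  apply h
  simp [toList_mul]

theorem dP_not (n : ℕ) (i : Fin 3) : dA n * of i ∉ dZ := fun h =>
  not_inner (by simp [toList_dA]) (mul_of_mem_dZ.1 h)

theorem dQ_not (n : ℕ) (i : Fin 3) : dA n * of 2 * of i ∉ dZ := fun h =>
  not_inner (by simp [toList_mul, toList_dA]) (mul_of_mem_dZ.1 h)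

theorem dR_symm {u v : W3} (h : dR u v) : dR v u := by
  rcases h with h | h | ⟨n, h | h⟩
  · exact .inl h.symm
  · exact .inr (.inl h.symm)
  · exact .inr (.inr ⟨n, .inr h.symm⟩)
  · exact .inr (.inr ⟨n, .inl h.symm⟩)

theorem dR_trans {u v w : W3} (h : dR u v) (h' : dR v w) : dR u w := by
  rcases h with rfl | h | ⟨n, ⟨rfl, rfl⟩ | ⟨rfl, rfl⟩⟩
  · exact h'
  · rcases h' with rfl | h' | ⟨n, ⟨rfl, rfl⟩ | ⟨rfl, rfl⟩⟩
    · exact .inr (.inl h)
    · exact .inr (.inl ⟨h.1, h'.2⟩)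
    · exact absurd h.2 (dP_not _ _)
    · exact absurd h.2 (dQ_not _ _)
  · rcases h' with rfl | h' | ⟨m, ⟨e, rfl⟩ | ⟨e, rfl⟩⟩
    · exact .inr (.inr ⟨n, .inl ⟨rfl, rfl⟩⟩)
    · exact absurd h'.1 (dQ_not _ _)
    · exact absurd (mul_right_cancel e).symm (dA_ne_two _ _)
    · rw [dA_inj (mul_right_cancel (mul_right_cancel e))]
      exact .inl rfl
  · rcases h' with rfl | h' | ⟨m, ⟨e, rfl⟩ | ⟨e, rfl⟩⟩
    · exact .inr (.inr ⟨n, .inr ⟨rfl, rfl⟩⟩)
    · exact absurd h'.1 (dP_not _ _)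
    · rw [show n = m by have := dA_inj (mul_right_cancel e); omega]
      exact .inl rfl
    · exact absurd (mul_right_cancel e) (dA_ne_two _ _)

theorem ext_mem_dZ {s t : W3} (h : s ≠ 1 ∨ t ≠ 1) (n : ℕ) (m : W3) :
    s * (dA n * m * of 0) * t ∈ dZ := by
  rcases h with h | h
  · exact ⟨s, of 1 ^ n * m * of 0 * t, h, mul_ne_l (mul_ne_r _ (of_ne_one _)) _, by
      simp only [dA, mul_assoc]⟩
  · exact ⟨s * dA n * m, t, mul_ne_l (mul_ne_r _ (dA_ne n)) _, h, by simp only [mul_assoc]⟩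

theorem dR_mul {u v : W3} (h : dR u v) (s t : W3) : dR (s * u * t) (s * v * t) := by
  by_cases hst : s ≠ 1 ∨ t ≠ 1
  · have k1 := fun n => ext_mem_dZ hst n 1
    simp only [mul_one] at k1
    have k2 : ∀ w ∈ dZ, s * w * t ∈ dZ := by
      rintro _ ⟨a, b, h1, h2, rfl⟩
      exact ⟨s * a, b * t, mul_ne_r _ h1, mul_ne_l h2 _, by simp only [mul_assoc]⟩
    rcases h with rfl | h | ⟨n, ⟨rfl, rfl⟩ | ⟨rfl, rfl⟩⟩
    · exact .inl rfl
    · exact .inr (.inl ⟨k2 _ h.1, k2 _ h.2⟩)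
    · exact .inr (.inl ⟨k1 _, ext_mem_dZ hst _ _⟩)
    · exact .inr (.inl ⟨ext_mem_dZ hst _ _, k1 _⟩)
  · push Not at hst
    rwa [hst.1, hst.2, one_mul, one_mul, mul_one, mul_one]

/-- The congruence. -/
def dC : Con W3 where
  r := dR
  iseqv := ⟨fun _ => .inl rfl, dR_symm, dR_trans⟩
  mul' := fun {w x y z} h h' => by
    have h1 := dR_mul h 1 y
    have h2 := dR_mul h' x 1
    simp only [one_mul, mul_one] at h1 h2
    exact dR_trans h1 h2

/-- A word that neither lies in the ideal nor ends with `0` has no other representative. -/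
theorem dR_eq {u v : W3} (h : dR u v) (h1 : v ∉ dZ) (h2 : ∀ t, v ≠ t * of 0) : u = v := by
  rcases h with h | h | ⟨n, h | h⟩
  · exact h
  · exact absurd h.2 h1
  · exact absurd h.2 (h2 _)
  · exact absurd h.2 (h2 _)

theorem dR_one {u : W3} (h : dR u 1) : u = 1 :=
  dR_eq h (fun ⟨_, _, _, h2, e⟩ => mul_ne_r _ h2 e.symm)
    fun _ e => mul_ne_r _ (of_ne_one _) e.symm

/-- The semigroup of classes of nonempty words. -/
def dS : Subsemigroup dC.Quotient where
  carrier := {m | m ≠ 1}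
  mul_mem' := fun {a b} ha _ e => by
    induction a using Con.induction_on with | H u => ?_
    induction b using Con.induction_on with | H v => ?_
    have h1 : u * v = 1 := dR_one (dC.eq.1 e)
    by_cases hu : u = 1
    · exact ha (by rw [hu]; rfl)
    · exact mul_ne_l hu v h1

/-- The class of a nonempty word. -/
def dCl (u : W3) (h : u ≠ 1) : dS := ⟨(u : dC.Quotient), fun e => h (dR_one (dC.eq.1 e))⟩

/-- The generators. -/
def dG (i : Fin 3) : dS := dCl (of i) (of_ne_one i)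

theorem ev_dG {u : W3} (h : u ≠ 1) : ev dG u = (dCl u h : WithOne dS) := by
  induction u using FreeMonoid.inductionOn' with
  | one => exact absurd rfl h
  | of_mul a u ih =>
    by_cases hu : u = 1
    · subst hu
      rfl
    · rw [map_mul, ih hu]
      rfl

theorem ev_eq_iff {u v : W3} (hu : u ≠ 1) (hv : v ≠ 1) : ev dG u = ev dG v ↔ dR u v := by
  rw [ev_dG hu, ev_dG hv, WithOne.coe_inj, Subtype.ext_iff]
  exact dC.eq

theorem dG_inj : Function.Injective dG := fun i j h => by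
  have h1 : dR (of i) (of j) := dC.eq.1 (congrArg Subtype.val h)
  have h2 : ∀ k : Fin 3, (of k : W3) ∉ dZ := fun k hk =>
    not_inner (u := 1) (by simp) (mul_of_mem_dZ.1 hk)
  have h3 : ∀ (k : Fin 3) (t : W3), t ≠ 1 → of k ≠ t * of 0 := fun k t ht e =>
    ht (List.append_inj' (s₁ := []) e rfl).1.symm
  rcases h1 with h1 | h1 | ⟨n, h1 | h1⟩
  · exact of_injective h1
  · exact absurd h1.1 (h2 i)
  · exact absurd h1.1 (h3 i _ (dA_ne _))
  · exact absurd h1.2 (h3 j _ (dA_ne _))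

theorem isRat_univ3 : IsRat (Set.univ : Set W3) := by
  simpa using (reg_empty (α := Fin 3)).compl.isRat

theorem isRat_ne3 : IsRat {u : W3 | u ≠ 1} := (reg_singleton ([] : List (Fin 3))).compl.isRat

theorem isRat_dZ : IsRat dZ := by
  convert (isRat_ne3.mul (.finite (Set.finite_singleton (of 0)))).mul isRat_ne3 using 1
  ext w
  constructor
  · rintro ⟨s, t, h1, h2, rfl⟩
    exact ⟨_, ⟨s, h1, _, rfl, rfl⟩, t, h2, rfl⟩
  · rintro ⟨_, ⟨s, h1, _, rfl, rfl⟩, t, h2, rfl⟩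
    exact ⟨s, t, h1, h2, rfl⟩

theorem isRat_dZ' : IsRat {u : W3 | ∃ s t, s ≠ 1 ∧ u = s * of 0 * t} := by
  convert (isRat_ne3.mul (.finite (Set.finite_singleton (of 0)))).mul isRat_univ3 using 1
  ext w
  constructor
  · rintro ⟨s, t, h1, rfl⟩
    exact ⟨_, ⟨s, h1, _, rfl, rfl⟩, t, trivial, rfl⟩
  · rintro ⟨_, ⟨s, h1, _, rfl, rfl⟩, t, -, rfl⟩
    exact ⟨s, t, h1, rfl⟩

theorem isRat_diag (w : W3) : IsRat ((fun u : W3 => (u, u * w)) '' {u | u ≠ 1}) := by
  convert (isRat_ne3.image ((MonoidHom.id W3).prod (MonoidHom.id W3))).mul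
    (.finite (Set.finite_singleton ((1 : W3), w))) using 1
  rw [Set.mul_singleton, Set.image_image]
  simp

theorem isRat_pair (i j : ℕ) (r s : W3) :
    IsRat (Set.range fun n : ℕ => (dA (i * n) * r, dA (j * n) * s)) := by
  convert isRat_line ((of 0, of 0) : W3 × W3) (of 1 ^ i, of 1 ^ j) (r, s) using 3
  simp only [dA, Prod.pow_mk, Prod.mk_mul_mk, pow_mul]

theorem quasi_dG : QuasiAutStruct dG {u | u ≠ 1} := by
  have hZ : ∀ w ∈ dZ, w ≠ 1 := fun w ⟨_, _, _, h2, e⟩ => e ▸ mul_ne_r _ h2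
  have h0 : ∀ (t : W3) (i : Fin 3), t * of i ≠ 1 := fun t i => mul_ne_r _ (of_ne_one _)
  refine ⟨⟨isRat_ne3, fun h => h rfl, fun ⟨m, hm⟩ => ?_⟩, ?_, fun i => ?_⟩
  · induction m using Con.induction_on with | H u => ?_
    have hu : u ≠ 1 := fun e => hm (by rw [e]; rfl)
    exact ⟨u, hu, ev_dG hu⟩
  · convert (isRat_diag 1).union ((isRat_dZ.prod isRat_dZ).union
      ((isRat_pair 2 1 (of 0) (of 2 * of 0)).union (isRat_pair 1 2 (of 2 * of 0) (of 0)))) using 1
    ext ⟨u, v⟩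
    simp only [one_mul, mul_one, ← mul_assoc]
    constructor
    · rintro ⟨h1, h2, h3⟩
      rcases (ev_eq_iff h1 h2).1 h3 with h | h | ⟨n, h | h⟩
      · exact .inl ⟨u, h1, Prod.ext rfl h⟩
      · exact .inr (.inl h)
      · exact .inr (.inr (.inl ⟨n, Prod.ext h.1.symm h.2.symm⟩))
      · exact .inr (.inr (.inr ⟨n, Prod.ext h.1.symm h.2.symm⟩))
    · rintro (⟨w, h1, h⟩ | h | ⟨n, h⟩ | ⟨n, h⟩)
      · obtain ⟨rfl, rfl⟩ := Prod.mk.inj h
        exact ⟨h1, h1, rfl⟩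
      · exact ⟨hZ _ h.1, hZ _ h.2, (ev_eq_iff (hZ _ h.1) (hZ _ h.2)).2 (.inr (.inl h))⟩
      · obtain ⟨rfl, rfl⟩ := Prod.mk.inj h
        exact ⟨h0 _ _, h0 _ _, (ev_eq_iff (h0 _ _) (h0 _ _)).2 (.inr (.inr ⟨n, .inl ⟨rfl, rfl⟩⟩))⟩
      · obtain ⟨rfl, rfl⟩ := Prod.mk.inj h
        exact ⟨h0 _ _, h0 _ _, (ev_eq_iff (h0 _ _) (h0 _ _)).2 (.inr (.inr ⟨n, .inr ⟨rfl, rfl⟩⟩))⟩
  · have hI : IsRat {p : W3 × W3 | i = 0 ∧ p ∈ (Set.range fun n : ℕ =>
        (dA (2 * n) * 1, dA (1 * n) * (of 2 * of 0))) ∪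
        Set.range fun n : ℕ => (dA (1 * n) * of 2, dA (2 * n) * of 0)} := by
      by_cases hi : i = 0
      · simp only [hi, true_and]
        exact (isRat_pair 2 1 1 (of 2 * of 0)).union (isRat_pair 1 2 (of 2) (of 0))
      · simp only [hi, false_and]
        exact .finite Set.finite_empty
    convert (isRat_diag (of i)).union ((isRat_dZ'.prod isRat_dZ).union hI) using 1
    ext ⟨u, v⟩
    simp only [one_mul, mul_one, ← mul_assoc]
    have hc : ∀ t : W3, u * of i = t * of 0 → i = 0 ∧ t = u := fun t e =>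
      ⟨of_injective (List.append_inj' e rfl).2, (List.append_inj' e rfl).1.symm⟩
    constructor
    · rintro ⟨h1, h2, h3⟩
      rcases (ev_eq_iff (h0 _ _) h2).1 h3 with h | h | ⟨n, h | h⟩
      · exact .inl ⟨u, h1, Prod.ext rfl h⟩
      · exact .inr (.inl ⟨mul_of_mem_dZ.1 h.1, h.2⟩)
      · exact .inr (.inr ⟨(hc _ h.1).1, .inl ⟨n, Prod.ext (hc _ h.1).2 h.2.symm⟩⟩)
      · exact .inr (.inr ⟨(hc _ h.1).1, .inr ⟨n, Prod.ext (hc _ h.1).2 h.2.symm⟩⟩)
    · rintro (⟨w, h1, h⟩ | h | ⟨rfl, ⟨n, h⟩ | ⟨n, h⟩⟩)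
      · obtain ⟨rfl, rfl⟩ := Prod.mk.inj h
        exact ⟨h1, h0 _ _, rfl⟩
      · obtain ⟨s, t, h1, e⟩ := h.1
        exact ⟨e ▸ mul_ne_l (mul_ne_l h1 _) _, hZ _ h.2, (ev_eq_iff (h0 _ _) (hZ _ h.2)).2
          (.inr (.inl ⟨mul_of_mem_dZ.2 h.1, h.2⟩))⟩
      · obtain ⟨rfl, rfl⟩ := Prod.mk.inj h
        exact ⟨dA_ne _, h0 _ _, (ev_eq_iff (h0 _ _) (h0 _ _)).2 (.inr (.inr ⟨n, .inl ⟨rfl, rfl⟩⟩))⟩
      · obtain ⟨rfl, rfl⟩ := Prod.mk.inj h
        exact ⟨h0 _ _, h0 _ _, (ev_eq_iff (h0 _ _) (h0 _ _)).2 (.inr (.inr ⟨n, .inr ⟨rfl, rfl⟩⟩))⟩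

theorem not_async_dG (L : Set W3) : ¬AsyncAutStruct dG L := by
  rintro ⟨⟨-, h1, hL⟩, -, hD⟩
  obtain ⟨n, tape, next, start, final, hA⟩ := hD 0
  have hne : ∀ u ∈ L, u ≠ 1 := fun u hu e => h1 (e ▸ hu)
  have h0 : ∀ (t : W3) (i : Fin 3), t * of i ≠ 1 := fun t i => mul_ne_r _ (of_ne_one _)
  have rep : ∀ u : W3, u ≠ 1 → ∃ v ∈ L, dR v u := fun u hu => by
    obtain ⟨v, hv, e⟩ := hL (dCl u hu)
    exact ⟨v, hv, (ev_eq_iff (hne v hv) hu).1 (e.trans (ev_dG hu).symm)⟩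
  have uniq : ∀ u : W3, u ≠ 1 → (0 : Fin 3) ∉ (toList u).tail → 2 ≤ (toList u).length → u ∈ L :=
    fun u hu h2 h3 => by
      obtain ⟨v, hv, e⟩ := rep u hu
      rwa [← dR_eq e (fun ⟨s, t, a, _, b⟩ => not_inner h2 ⟨s, t, a, b⟩) fun t e => ?_]
      refine not_inner h2 ⟨t, 1, ?_, e.trans (mul_one _).symm⟩
      rintro rfl
      simp [e] at h3
  have mA : ∀ k l, mark (dA (k + l)) = (some 0 :: List.replicate k (some 1)) ++
      (List.replicate l (some 1) ++ [none]) := fun k l => by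
    rw [mark, toList_dA, List.map_cons, List.map_replicate, List.replicate_add]
    simp only [List.cons_append, List.append_assoc]
  have mB : ∀ k, mark (dA k * of 2) = (some 0 :: List.replicate k (some 1)) ++ [some 2, none] :=
    fun k => by simp [mark, toList_mul, toList_dA]
  have key : ∀ k : ℕ, ∃ (r : Fin n) (y1 y2 : List (Option (Fin 3))),
      Run tape next start (some 0 :: List.replicate (k + 1) (some 1)) y1 r ∧
      (∃ f ∈ final, Run tape next r [some 2, none] y2 f) ∧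
      ∃ f ∈ final, Run tape next r (List.replicate (k + 1) (some 1) ++ [none]) y2 f := fun k => by
    obtain ⟨w, hw, e⟩ := rep (dA (2 * (k + 1)) * of 0) (h0 _ _)
    have e' : dR (dA (k + 1) * of 2 * of 0) w :=
      dR_trans (.inr (.inr ⟨k + 1, .inr ⟨rfl, rfl⟩⟩)) (dR_symm e)
    obtain ⟨f1, a1, a2⟩ := (hA _ _).1 ⟨(dA (k + 1) * of 2, w), ⟨uniq _ (h0 _ _)
      (by simp [toList_mul, toList_dA]) (by simp [toList_mul, toList_dA]), hw,
      (ev_eq_iff (h0 _ _) (hne w hw)).2 e'⟩, rfl⟩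
    obtain ⟨f2, b1, b2⟩ := (hA _ _).1 ⟨(dA (2 * (k + 1)), w), ⟨uniq _ (dA_ne _)
      (by simp [toList_dA]) (by simp [toList_dA]; omega), hw,
      (ev_eq_iff (h0 _ _) (hne w hw)).2 (dR_symm e)⟩, rfl⟩
    rw [two_mul, mA] at b2
    obtain ⟨r, y1, y2, -, c1, c2, c3⟩ := run_split a2 (mB _) b2
    exact ⟨r, y1, y2, c1, ⟨f1, a1, c2⟩, f2, b1, c3⟩
  choose r y1 y2 c1 c2 c3 using key
  obtain ⟨k, l, hkl, e⟩ := Finite.exists_ne_map_eq_of_infinite r
  obtain ⟨f1, a1, a2⟩ := c2 l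
  obtain ⟨f2, b1, b2⟩ := c3 l
  rw [← e] at a2 b2
  obtain ⟨⟨u, v⟩, ⟨-, d1, d2⟩, d3⟩ := (hA _ _).2 ⟨f1, a1, run_append (c1 k) a2⟩
  obtain ⟨⟨u', v'⟩, ⟨-, -, d5⟩, d6⟩ := (hA _ _).2 ⟨f2, b1, run_append (c1 k) b2⟩
  obtain ⟨d7, d8⟩ := Prod.mk.inj d3
  obtain ⟨d9, d10⟩ := Prod.mk.inj d6
  obtain rfl := mark_inj (d7.trans (mB _).symm)
  obtain rfl := mark_inj (d9.trans (mA _ _).symm)
  obtain rfl := mark_inj (d8.trans d10.symm)
  rcases (ev_eq_iff (h0 _ _) (h0 _ _)).1 (d5.trans d2.symm) with h | h | ⟨m, h | h⟩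
  · exact dA_ne_two _ _ (mul_right_cancel h)
  · exact dP_not _ _ h.1
  · have g1 := dA_inj (mul_right_cancel h.1)
    have g2 := dA_inj (mul_right_cancel (mul_right_cancel h.2))
    omega
  · exact dA_ne_two _ _ (mul_right_cancel h.1)

end Pool.Agent.Lib.MP_7f7674_al
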