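import Mathlib
import Pool.Agent.Lib.MP_7f7674_al.Cross
import Pool.Agent.Lib.MP_7f7674_al.Code

/-!
From a quasi-automatic structure to an asynchronously automatic one.
-/

set_option autoImplicit false

namespace Pool.Agent.Lib.MP_7f7674_al

variable {A S : Type*} [Semigroup S]

theorem exists_normal_forms [Finite A] {g : A → S} {L : Set (FreeMonoid A)}
    (h : QuasiAutStruct g L) : ∃ C : Set (List A), Reg C ∧ (∀ u ∈ C, u ≠ []) ∧
      (∀ u ∈ C, ∀ v ∈ C, evl g u = evl g v → u = v) ∧ (∀ s : S, ∃ u ∈ C, evl g u = s) ∧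
      ∀ w, NRat fun u v => u ∈ C ∧ v ∈ C ∧ evl g u * evl g w = evl g v := by
  obtain ⟨⟨-, h1, h2⟩, h3, h4⟩ := h
  obtain ⟨C, hC, c1, c2, c3⟩ := cross_section h3.nrat
    (fun u v h => ⟨h.2.1, h.1, h.2.2.symm⟩)
    (fun u v w h h' => ⟨h.1, h'.2.1, h.2.2.trans h'.2.2⟩)
  have hL : ∀ u ∈ C, FreeMonoid.ofList u ∈ L := fun u hu => (c1 u hu).1
  have hne : ∀ u ∈ C, u ≠ [] := by
    rintro u hu rfl
    exact h1 (hL _ hu)
  have honto : ∀ s : S, ∃ u ∈ C, evl g u = s := by
    intro s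
    obtain ⟨u, hu, hs⟩ := h2 s
    obtain ⟨c, hc, h5⟩ := c2 (FreeMonoid.toList u) ⟨hu, hu, rfl⟩
    exact ⟨c, hc, h5.2.2.symm.trans hs⟩
  refine ⟨C, hC, hne, fun u hu v hv huv => c3 u hu v hv ⟨hL u hu, hL v hv, huv⟩, honto, ?_⟩
  intro w
  induction w using List.reverseRecOn with
  | nil =>
    obtain ⟨K, hK, h5⟩ := h3.nrat.restrict hC hC
    refine ⟨K, hK, fun u v => Iff.trans ⟨?_, ?_⟩ (h5 u v)⟩
    · rintro ⟨hu, hv, h6⟩
      exact ⟨⟨hL u hu, hL v hv, by simpa [evl] using h6⟩, hu, hv⟩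
    · rintro ⟨⟨-, -, h6⟩, hu, hv⟩
      exact ⟨hu, hv, by simpa [evl] using h6⟩
  | append_singleton w a ih =>
    obtain ⟨K, hK, h5⟩ := ih.comp ((h4 a).nrat.restrict hC hC)
    refine ⟨K, hK, fun u v => Iff.trans ⟨?_, ?_⟩ (h5 u v)⟩
    · rintro ⟨hu, hv, h6⟩
      obtain ⟨s, hs⟩ := evl_coe g (w := u ++ w) (by simp [hne u hu])
      obtain ⟨c, hc, h7⟩ := honto s
      have h8 : evl g u * evl g w = evl g c := by rw [← evl_append, hs, h7]
      refine ⟨c, ⟨hu, hc, h8⟩, ⟨hL c hc, hL v hv, ?_⟩, hc, hv⟩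
      show evl g (c ++ [a]) = evl g v
      rw [evl_append, ← h8, mul_assoc, ← evl_append, h6]
    · rintro ⟨c, ⟨hu, -, h8⟩, ⟨-, -, h6⟩, -, hv⟩
      have h7 : evl g (c ++ [a]) = evl g v := h6
      exact ⟨hu, hv, by rw [evl_append, ← mul_assoc, h8, ← evl_append, h7]⟩

theorem async_of_normal_forms [Finite A] {g : A → S} {C : Set (List A)} (hC : Reg C)
    (hne : ∀ u ∈ C, u ≠ []) (hinj : ∀ u ∈ C, ∀ v ∈ C, evl g u = evl g v → u = v)
    (honto : ∀ s : S, ∃ u ∈ C, evl g u = s)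
    (hrat : ∀ w, NRat fun u v => u ∈ C ∧ v ∈ C ∧ evl g u * evl g w = evl g v) :
    ∃ (B : Finset S) (L : Set (FreeMonoid B)), AsyncAutStruct (fun b : B => (b : S)) L := by
  classical
  obtain ⟨H, hH, hcut⟩ := exists_cut g hC hinj
  have hBfin : {s : S | ∃ w : List A, w.length ≤ H ∧ (s : WithOne S) = evl g w}.Finite := by
    refine Set.Finite.of_finite_image (f := fun s : S => (s : WithOne S))
      (((List.finite_length_le A H).image (evl g)).subset ?_) WithOne.coe_injective.injOn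
    rintro _ ⟨s, ⟨w, h1, h2⟩, rfl⟩
    exact ⟨w, h1, h2.symm⟩
  obtain ⟨B, hB⟩ : ∃ B : Finset S,
      ∀ w : List A, w ≠ [] → w.length ≤ H → ∃ b ∈ B, (b : WithOne S) = evl g w := by
    refine ⟨hBfin.toFinset, fun w h1 h2 => ?_⟩
    obtain ⟨s, hs⟩ := evl_coe g h1
    exact ⟨s, by simpa using ⟨w, h2, hs.symm⟩, hs.symm⟩
  let val : Option B → WithOne S := fun o => o.elim 1 fun b => ((b : S) : WithOne S)
  have hK : ∀ o : Option B, ∃ K, Reg K ∧
      ∀ u v, (u ∈ C ∧ v ∈ C ∧ evl g u * val o = evl g v) ↔ Rel K u v := by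
    rintro (_ | b)
    · simpa [val, NRat] using hrat []
    · obtain ⟨w, -, hw⟩ := honto b
      have := hrat w
      rw [hw] at this
      exact this
  choose K hKreg hK using hK
  let τ : List A → Set (Set (List A)) × (Option B → Set (Set (List (A ⊕ A)))) := fun s =>
    ({P | P ∈ Set.range (lq C) ∧ s ∈ P}, fun o => rty (K o) s)
  have hτfin : (Set.range τ).Finite := by
    refine finite_range_pair (hC.finite_subsets.subset ?_)
      ((Set.Finite.pi' fun o => finite_range_rty (hKreg o)).subset ?_)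
    · rintro _ ⟨s, rfl⟩ P hP
      exact hP.1
    · rintro _ ⟨s, rfl⟩ o
      exact ⟨s, rfl⟩
  have hτC : ∀ x s s', τ s = τ s' → x ++ s ∈ C → x ++ s' ∈ C := by
    intro x s s' h hx
    have h1 : lq C x ∈ (τ s).1 := ⟨⟨x, rfl⟩, hx⟩
    rw [h] at h1
    exact h1.2
  have hτK : ∀ o s s', τ s = τ s' → rty (K o) s = rty (K o) s' :=
    fun o s s' h => congrFun (congrArg Prod.snd h) o
  have hτ : ∀ x s s', τ s = τ s' → τ (x ++ s) = τ (x ++ s') := by
    intro x s s' h
    refine Prod.ext ?_ (funext fun o => rty_append x (hτK o s s' h))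
    ext P
    refine and_congr_right ?_
    rintro ⟨y, rfl⟩
    simp only [mem_lq, ← List.append_assoc]
    exact ⟨hτC _ _ _ h, hτC _ _ _ h.symm⟩
  obtain ⟨m, bits, hm, hb1, hb2⟩ := exists_bits hτfin
  let code : List A × _ × Bool → List (Option B) := fun l =>
    if l.2.2 = true then codeLast g B H m l.1 ++ [none] else codeBits g B H (bits l.2.1) l.1
  have hlast : ∀ l : List A × _ × Bool, l.2.2 = true → l.1.length < H * m →
      ∃ y : List B, code l = y.map some ++ [none] ∧ evl (fun b : B => (b : S)) y = evl g l.1 ∧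
        y.length ≤ m := by
    intro l h1 h2
    obtain ⟨y, h3, h4⟩ := codeLast_spec hH hB m l.1 h2.le
    exact ⟨y, by simp only [code, if_pos h1, h3], h4⟩
  have hfull : ∀ l : List A × _ × Bool, l.2.2 = false → l.1.length = H * m →
      ∃ y : List B, code l = y.map some ∧ evl (fun b : B => (b : S)) y = evl g l.1 ∧
        y.length = 2 * m ∧ code l = codeBits g B H (bits l.2.1) l.1 := by
    intro l h1 h2
    obtain ⟨y, h3, h4, h5⟩ := codeBits_spec hH hB (bits l.2.1) l.1 (by rw [hb1, h2])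
    have h6 : code l = codeBits g B H (bits l.2.1) l.1 := by simp [code, h1]
    exact ⟨y, h6.trans h3, h4, by rw [h5, hb1], h6⟩
  have hshape : ∀ u z, IsBlocks (H * m) τ u z → ∃ y : List B,
      z.flatMap code = y.map some ++ [none] ∧ evl (fun b : B => (b : S)) y = evl g u := by
    intro u z h
    induction h with
    | last W h1 =>
      obtain ⟨y, h2, h3, -⟩ := hlast (W, τ [], true) rfl h1
      exact ⟨y, by simpa using h2, h3⟩
    | @cons W s z h1 _ ih =>
      obtain ⟨y, h2, h3, -⟩ := hfull (W, τ s, false) rfl h1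
      obtain ⟨y', h4, h5⟩ := ih
      exact ⟨y ++ y', by simp [h2, h4], by rw [evl_append, evl_append, h3, h5]⟩
  let D := blocksOf (H * m) τ C
  have hD : Reg D := reg_blocksOf hτfin hτ hC
  let Λ0 : Set (List A × _ × Bool) := {w : List A | w.length ≤ H * m} ×ˢ Set.range τ ×ˢ Set.univ
  have hΛ : Λ0.Finite := (List.finite_length_le A _).prod (hτfin.prod Set.finite_univ)
  have h0 : ∀ z l z', z ++ l :: z' ∈ D → l ∈ Λ0 ∧ code l ≠ [] := by
    intro z l z' h
    obtain ⟨s0, -, h1, ⟨h2, -, h3⟩ | ⟨h2, h3⟩⟩ := blocksOf_inv hτ h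
    · obtain ⟨y, h4, -⟩ := hlast l h2 h3
      exact ⟨⟨h3.le, ⟨_, h1.symm⟩, trivial⟩, by simp [h4]⟩
    · obtain ⟨y, h4, -, h5, -⟩ := hfull l h2 h3
      refine ⟨⟨h3.le, ⟨_, h1.symm⟩, trivial⟩, ?_⟩
      rw [h4]
      exact List.ne_nil_of_length_pos (by simp; omega)
  have hdec : ∀ z l z' l' z'', z ++ l :: z' ∈ D → z ++ l' :: z'' ∈ D → code l <+: code l' →
      l = l' := by
    intro z l z' l' z'' h h' ⟨w, hw⟩
    obtain ⟨s, c1, t1, d1⟩ := blocksOf_inv hτ h
    obtain ⟨s', c2, t2, d2⟩ := blocksOf_inv hτ h'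
    have fin : l.2.2 = l'.2.2 → τ s = τ s' → evl g l.1 = evl g l'.1 → l = l' := by
      intro e1 e2 e3
      have c3 := hτC _ _ _ e2 c1
      have := hinj _ c3 _ c2 (by simp only [evl_append, e3])
      exact Prod.ext (by simpa using this) (Prod.ext (by rw [t1, t2, e2]) e1)
    rcases d1 with ⟨b1, rfl, l1⟩ | ⟨b1, l1⟩ <;> rcases d2 with ⟨b2, rfl, l2⟩ | ⟨b2, l2⟩
    · obtain ⟨y, h1, h2, -⟩ := hlast l b1 l1
      obtain ⟨y', h3, h4, -⟩ := hlast l' b2 l2
      rw [h1, h3] at hw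
      obtain ⟨rfl, -⟩ := mark_pre hw
      exact fin (b1.trans b2.symm) rfl (h2.symm.trans h4)
    · obtain ⟨y, h1, -⟩ := hlast l b1 l1
      obtain ⟨y', h3, -⟩ := hfull l' b2 l2
      rw [h1, h3] at hw
      have : none ∈ y'.map some := by rw [← hw]; simp
      simp at this
    · obtain ⟨y, h1, -, h2, -⟩ := hfull l b1 l1
      obtain ⟨y', h3, -, h4⟩ := hlast l' b2 l2
      rw [h1, h3] at hw
      have := congrArg List.length hw
      simp at this
      omega
    · obtain ⟨y, h1, h2, h5, h7⟩ := hfull l b1 l1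
      obtain ⟨y', h3, h4, h6, h8⟩ := hfull l' b2 l2
      have hw' : w = [] := by
        have := congrArg List.length hw
        rw [h1, h3] at this
        simp at this
        exact List.eq_nil_of_length_eq_zero (by omega)
      rw [hw', List.append_nil] at hw
      have h9 := codeBits_inj hH hB hcut _ _ _ _ _ _ _ _ c1 c2 (by rw [hb1, l1]) (by rw [hb1, l2])
        (h7.symm.trans (hw.trans h8))
      have h10 : y = y' := List.map_injective_iff.2 (Option.some_injective _)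
        (h1.symm.trans (hw.trans h3))
      refine fin (b1.trans b2.symm) ?_ (by rw [← h2, ← h4, h10])
      rw [← t1, ← t2]
      exact hb2 _ ⟨_, t1.symm⟩ _ ⟨_, t2.symm⟩ h9
  have hE : ∀ o : Option B, ∃ e : List (Option B) → Option B → List A, FinState e ∧
      ∀ u ∈ C, ∀ z, IsBlocks (H * m) τ u z → out e (z.flatMap code) ∈ C ∧
        evl g u * val o = evl g (out e (z.flatMap code)) := by
    intro o
    obtain ⟨e, h1, h2⟩ := seq_lookahead (H := H * m) (hKreg o) (hτK o)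
    obtain ⟨e', h3, h4⟩ := seq_decode hD Λ0 hΛ code h0 hdec h1
    refine ⟨e', h3, fun u hu z hz => ?_⟩
    rw [h4 z ⟨u, hu, hz⟩]
    refine ((hK o _ _).2 (h2 u z hz ?_)).2
    obtain ⟨s, hs⟩ := evl_coe g (hne u hu)
    obtain ⟨s', hs'⟩ : ∃ s' : S, evl g u * val o = s' := by
      rcases o with _ | b
      · exact ⟨s, by simpa [val] using hs⟩
      · exact ⟨s * b, by simp [val, hs]⟩
    obtain ⟨v, hv, h5⟩ := honto s'
    exact ⟨v, (hK o _ _).1 ⟨hu, hv, hs'.trans h5.symm⟩⟩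
  choose E hE1 hE2 using hE
  let Dom : Set (List (Option B)) := (fun z => z.flatMap code) '' D
  have hDom : Reg Dom := hD.image_flatMap code hΛ fun z hz l hl => by
    obtain ⟨z1, z2, rfl⟩ := List.append_of_mem hl
    exact (h0 _ _ _ hz).1
  have hDom' : ∀ x ∈ Dom, ∃ y : FreeMonoid B, x = mark y ∧ ∃ u ∈ C,
      ev (fun b : B => (b : S)) y = evl g u ∧
        ∀ o, out (E o) x ∈ C ∧ evl g u * val o = evl g (out (E o) x) := by
    rintro _ ⟨z, ⟨u, hu, hz⟩, rfl⟩
    obtain ⟨y, h1, h2⟩ := hshape u z hz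
    exact ⟨FreeMonoid.ofList y, h1, u, hu, h2, fun o => hE2 o u hu z hz⟩
  have hmark : ∀ {y y' : FreeMonoid B}, mark y = mark y' → y = y' := fun h =>
    FreeMonoid.toList.injective (mark_pre (w := []) (by simpa [mark] using h)).1
  have hPF : PFree Dom := by
    intro x w hx hxw
    obtain ⟨y, rfl, -⟩ := hDom' x hx
    obtain ⟨y', h1, -⟩ := hDom' _ hxw
    exact (mark_pre h1).2
  have hmain : ∀ o : Option B, DetRec (markRel {p : FreeMonoid B × FreeMonoid B |
      mark p.1 ∈ Dom ∧ mark p.2 ∈ Dom ∧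
        ev (fun b : B => (b : S)) p.1 * val o = ev (fun b : B => (b : S)) p.2}) := by
    intro o
    convert detRec_equalizer hDom hDom hPF hPF (hE1 o) (hE1 none) using 1
    ext ⟨x, x'⟩
    constructor
    · rintro ⟨⟨y, y'⟩, ⟨h1, h2, h3⟩, h4⟩
      obtain ⟨rfl, rfl⟩ := Prod.ext_iff.1 h4
      obtain ⟨y1, h5, u, -, h6, h7⟩ := hDom' _ h1
      obtain ⟨y2, h8, u', -, h9, h10⟩ := hDom' _ h2
      obtain rfl := hmark h5
      obtain rfl := hmark h8
      refine ⟨h1, h2, hinj _ (h7 o).1 _ (h10 none).1 ?_⟩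
      rw [← (h7 o).2, ← (h10 none).2, ← h6, ← h9, h3]
      simp [val]
    · rintro ⟨h1, h2, h3⟩
      obtain ⟨y1, rfl, u, -, h6, h7⟩ := hDom' _ h1
      obtain ⟨y2, rfl, u', -, h9, h10⟩ := hDom' _ h2
      refine ⟨(y1, y2), ⟨h1, h2, ?_⟩, rfl⟩
      have h4 : out (E o) (mark y1) = out (E none) (mark y2) := h3
      rw [h6, h9, (h7 o).2, h4, ← (h10 none).2]
      simp [val]
  refine ⟨B, {y | mark y ∈ Dom}, ⟨?_, ?_, ?_⟩, ?_, fun b => ?_⟩
  · exact ((hDom.rq [none]).preimage (List.map some) fun _ _ => List.map_append).isRat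
  · intro h
    obtain ⟨y, h1, u, hu, h2, -⟩ := hDom' _ h
    obtain rfl := hmark h1
    obtain ⟨s, hs⟩ := evl_coe g (hne u hu)
    rw [map_one, hs] at h2
    exact WithOne.one_ne_coe h2
  · intro s
    obtain ⟨u, hu, hs⟩ := honto s
    obtain ⟨z, hz⟩ := exists_blocks (H := H * m) (by positivity) τ u
    obtain ⟨y, h1, h2⟩ := hshape u z hz
    exact ⟨FreeMonoid.ofList y, ⟨z, ⟨u, hu, hz⟩, h1⟩, h2.trans hs⟩
  · convert hmain none using 2
    ext p
    simp [relEq, val]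
  · convert hmain (some b) using 2
    ext p
    simp [relMul, val, ev]

end Pool.Agent.Lib.MP_7f7674_al
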